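import Pool.Agent.X255.BC.EE

/-!
# Counting commuting pairs in `E`
-/

set_option linter.style.longLine false

namespace Pool.Agent.X255.BC
namespace EE

theorem c00 : (Finset.univ.filter (fun p : EE × EE => p.1.a0 = 0 ∧ p.2.a0 = 0 ∧
    p.2.b0 * p.1.a0 + p.2.b1 * p.1.a1 + p.2.b2 * p.1.a2 =
      p.1.b0 * p.2.a0 + p.1.b1 * p.2.a1 + p.1.b2 * p.2.a2)).card = 2176 := by
  decide +kernel

theorem c01 : (Finset.univ.filter (fun p : EE × EE => p.1.a0 = 0 ∧ p.2.a0 = 1 ∧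
    p.2.b0 * p.1.a0 + p.2.b1 * p.1.a1 + p.2.b2 * p.1.a2 =
      p.1.b0 * p.2.a0 + p.1.b1 * p.2.a1 + p.1.b2 * p.2.a2)).card = 2048 := by
  decide +kernel

theorem c10 : (Finset.univ.filter (fun p : EE × EE => p.1.a0 = 1 ∧ p.2.a0 = 0 ∧
    p.2.b0 * p.1.a0 + p.2.b1 * p.1.a1 + p.2.b2 * p.1.a2 =
      p.1.b0 * p.2.a0 + p.1.b1 * p.2.a1 + p.1.b2 * p.2.a2)).card = 2048 := by
  decide +kernel

theorem c11 : (Finset.univ.filter (fun p : EE × EE => p.1.a0 = 1 ∧ p.2.a0 = 1 ∧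
    p.2.b0 * p.1.a0 + p.2.b1 * p.1.a1 + p.2.b2 * p.1.a2 =
      p.1.b0 * p.2.a0 + p.1.b1 * p.2.a1 + p.1.b2 * p.2.a2)).card = 2048 := by
  decide +kernel

end EE
end Pool.Agent.X255.BC
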