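import Mathlib

/-!
# A group `E` of order 128 with a homomorphism to `{±1}`
-/

set_option linter.style.longLine false
set_option linter.style.haveILetI false
set_option linter.unusedSectionVars false
set_option linter.unusedVariables false

namespace Pool.Agent.X255.BC

/-- an extraspecial-type group of order 128 -/
@[ext] structure EE where
  a0 : ZMod 2
  a1 : ZMod 2
  a2 : ZMod 2
  b0 : ZMod 2
  b1 : ZMod 2
  b2 : ZMod 2
  z : ZMod 2
deriving DecidableEq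

namespace EE

/-- coordinates -/
def eqv : ZMod 2 × ZMod 2 × ZMod 2 × ZMod 2 × ZMod 2 × ZMod 2 × ZMod 2 ≃ EE where
  toFun v := ⟨v.1, v.2.1, v.2.2.1, v.2.2.2.1, v.2.2.2.2.1, v.2.2.2.2.2.1, v.2.2.2.2.2.2⟩
  invFun x := (x.a0, x.a1, x.a2, x.b0, x.b1, x.b2, x.z)
  left_inv _ := rfl
  right_inv _ := rfl

instance : Fintype EE := Fintype.ofEquiv _ eqv

instance : Mul EE := ⟨fun x y => ⟨x.a0 + y.a0, x.a1 + y.a1, x.a2 + y.a2, x.b0 + y.b0, x.b1 + y.b1,
  x.b2 + y.b2, x.z + y.z + y.b0 * x.a0 + y.b1 * x.a1 + y.b2 * x.a2⟩⟩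
instance : One EE := ⟨⟨0, 0, 0, 0, 0, 0, 0⟩⟩
instance : Inv EE := ⟨fun x => ⟨-x.a0, -x.a1, -x.a2, -x.b0, -x.b1, -x.b2,
  -x.z + x.b0 * x.a0 + x.b1 * x.a1 + x.b2 * x.a2⟩⟩

instance : Group EE := Group.ofLeftAxioms
  (by
    intro x y w
    apply EE.ext
    · exact add_assoc _ _ _
    · exact add_assoc _ _ _
    · exact add_assoc _ _ _
    · exact add_assoc _ _ _
    · exact add_assoc _ _ _
    · exact add_assoc _ _ _
    · change (x.z + y.z + y.b0 * x.a0 + y.b1 * x.a1 + y.b2 * x.a2) + w.z + w.b0 * (x.a0 + y.a0) + w.b1 * (x.a1 + y.a1) + w.b2 * (x.a2 + y.a2)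
        = x.z + (y.z + w.z + w.b0 * y.a0 + w.b1 * y.a1 + w.b2 * y.a2) + (y.b0 + w.b0) * x.a0 + (y.b1 + w.b1) * x.a1 + (y.b2 + w.b2) * x.a2
      ring)
  (by
    intro x
    apply EE.ext
    · exact zero_add _
    · exact zero_add _
    · exact zero_add _
    · exact zero_add _
    · exact zero_add _
    · exact zero_add _
    · change 0 + x.z + x.b0 * 0 + x.b1 * 0 + x.b2 * 0 = x.z
      ring)
  (by
    intro x
    apply EE.ext
    · exact neg_add_cancel _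
    · exact neg_add_cancel _
    · exact neg_add_cancel _
    · exact neg_add_cancel _
    · exact neg_add_cancel _
    · exact neg_add_cancel _
    · change (-x.z + x.b0 * x.a0 + x.b1 * x.a1 + x.b2 * x.a2) + x.z + x.b0 * (-x.a0) + x.b1 * (-x.a1) + x.b2 * (-x.a2) = 0
      ring)


/-- the commutation condition -/
lemma comm_iff (x y : EE) : x * y = y * x ↔
    y.b0 * x.a0 + y.b1 * x.a1 + y.b2 * x.a2 = x.b0 * y.a0 + x.b1 * y.a1 + x.b2 * y.a2 := by
  constructor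
  · intro h
    have h1 : x.z + y.z + y.b0 * x.a0 + y.b1 * x.a1 + y.b2 * x.a2 =
        y.z + x.z + x.b0 * y.a0 + x.b1 * y.a1 + x.b2 * y.a2 := congrArg EE.z h
    linear_combination h1
  · intro h
    apply EE.ext
    · exact add_comm _ _
    · exact add_comm _ _
    · exact add_comm _ _
    · exact add_comm _ _
    · exact add_comm _ _
    · exact add_comm _ _
    · change x.z + y.z + y.b0 * x.a0 + y.b1 * x.a1 + y.b2 * x.a2 =
        y.z + x.z + x.b0 * y.a0 + x.b1 * y.a1 + x.b2 * y.a2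
      linear_combination h

/-- the homomorphism to `{±1}` -/
def f : EE →* ℤˣ where
  toFun y := if y.a0 = 0 then 1 else -1
  map_one' := by
    change (if (0 : ZMod 2) = 0 then (1 : ℤˣ) else -1) = 1
    simp
  map_mul' x y := by
    change (if x.a0 + y.a0 = 0 then (1 : ℤˣ) else -1) =
      (if x.a0 = 0 then (1 : ℤˣ) else -1) * (if y.a0 = 0 then (1 : ℤˣ) else -1)
    generalize x.a0 = u
    generalize y.a0 = v
    revert u v
    decide

lemma f_one_iff (y : EE) : f y = 1 ↔ y.a0 = 0 := by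
  change (if y.a0 = 0 then (1 : ℤˣ) else -1) = 1 ↔ _
  generalize y.a0 = u
  revert u
  decide

lemma f_neg_iff (y : EE) : f y = -1 ↔ y.a0 = 1 := by
  change (if y.a0 = 0 then (1 : ℤˣ) else -1) = -1 ↔ _
  generalize y.a0 = u
  revert u
  decide

lemma pow4 : ∀ y : EE, y ^ 4 = 1 := by decide +kernel

lemma card_EE : Fintype.card EE = 128 := by decide +kernel

lemma card_f0 : Fintype.card {y : EE // y.a0 = 0} = 64 := by decide +kernel

/-- special element -/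
def v0 : EE := ⟨0, 0, 0, 1, 0, 0, 0⟩

lemma comm_v0 {e : EE} (h : e * v0 = v0 * e) : e.a0 = 0 := by
  rw [comm_iff] at h
  change 1 * e.a0 + 0 * e.a1 + 0 * e.a2 = e.b0 * 0 + e.b1 * 0 + e.b2 * 0 at h
  linear_combination h

lemma conj_inv {y y' : EE} (h : IsConj y y') : y.a0 = y'.a0 ∧ y.a1 = y'.a1 ∧ y.a2 = y'.a2 ∧
    y.b0 = y'.b0 ∧ y.b1 = y'.b1 ∧ y.b2 = y'.b2 ∧
    (y.a0 = 0 → y.a1 = 0 → y.a2 = 0 → y.b0 = 0 → y.b1 = 0 → y.b2 = 0 → y.z = y'.z) := by
  obtain ⟨c, hc⟩ := isConj_iff.mp h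
  have h1 : c * y = y' * c := by rw [← hc]; group
  have e1 : c.a0 + y.a0 = y'.a0 + c.a0 := congrArg EE.a0 h1
  have e2 : c.a1 + y.a1 = y'.a1 + c.a1 := congrArg EE.a1 h1
  have e3 : c.a2 + y.a2 = y'.a2 + c.a2 := congrArg EE.a2 h1
  have e4 : c.b0 + y.b0 = y'.b0 + c.b0 := congrArg EE.b0 h1
  have e5 : c.b1 + y.b1 = y'.b1 + c.b1 := congrArg EE.b1 h1
  have e6 : c.b2 + y.b2 = y'.b2 + c.b2 := congrArg EE.b2 h1
  have e7 : c.z + y.z + y.b0 * c.a0 + y.b1 * c.a1 + y.b2 * c.a2 =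
        y'.z + c.z + c.b0 * y'.a0 + c.b1 * y'.a1 + c.b2 * y'.a2 := congrArg EE.z h1
  have g1 : y.a0 = y'.a0 := by linear_combination e1
  have g2 : y.a1 = y'.a1 := by linear_combination e2
  have g3 : y.a2 = y'.a2 := by linear_combination e3
  have g4 : y.b0 = y'.b0 := by linear_combination e4
  have g5 : y.b1 = y'.b1 := by linear_combination e5
  have g6 : y.b2 = y'.b2 := by linear_combination e6
  refine ⟨g1, g2, g3, g4, g5, g6, ?_⟩
  intro z1 z2 z3 z4 z5 z6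
  rw [← g1, ← g2, ← g3, z1, z2, z3, z4, z5, z6] at e7
  linear_combination e7

/-- representatives with `f = 1` -/
abbrev R0 := {y : EE // y.a0 = 0 ∧ (y.z = 0 ∨ (y.a1 = 0 ∧ y.a2 = 0 ∧ y.b0 = 0 ∧ y.b1 = 0 ∧ y.b2 = 0))}
/-- representatives with `f = -1` -/
abbrev R1 := {y : EE // y.a0 = 1 ∧ y.z = 0}

lemma card_R0 : Fintype.card R0 = 33 := by decide +kernel
lemma card_R1 : Fintype.card R1 = 32 := by decide +kernel

lemma R0_inj (y y' : R0) (h : IsConj (y : EE) (y' : EE)) : y = y' := by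
  obtain ⟨g1, g2, g3, g4, g5, g6, g7⟩ := conj_inv h
  obtain ⟨y, h0, h1⟩ := y
  obtain ⟨y', h0', h1'⟩ := y'
  apply Subtype.ext
  apply EE.ext g1 g2 g3 g4 g5 g6
  change y.z = y'.z
  rcases h1 with h1 | ⟨q1, q2, q3, q4, q5⟩
  · rcases h1' with h1' | ⟨q1, q2, q3, q4, q5⟩
    · rw [h1, h1']
    · exact g7 h0 (g2.trans q1) (g3.trans q2) (g4.trans q3) (g5.trans q4) (g6.trans q5)
  · exact g7 h0 q1 q2 q3 q4 q5

lemma R1_inj (y y' : R1) (h : IsConj (y : EE) (y' : EE)) : y = y' := by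
  obtain ⟨g1, g2, g3, g4, g5, g6, g7⟩ := conj_inv h
  obtain ⟨y, h0, h1⟩ := y
  obtain ⟨y', h0', h1'⟩ := y'
  apply Subtype.ext
  apply EE.ext g1 g2 g3 g4 g5 g6
  change y.z = y'.z
  rw [h1, h1']

end EE
end Pool.Agent.X255.BC
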