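import Pool.Agent.X255.BC.LL

/-!
# More 3-regular classes than classes of any subgroup of order prime to three
-/

set_option linter.style.longLine false
set_option linter.style.haveILetI false
set_option linter.unusedSectionVars false
set_option linter.unusedVariables false

open scoped Classical

noncomputable section

namespace Pool.Agent.X255.BC

/-- the number of classes of `3`-regular elements -/
def l3 (G : Type) [Group G] : ℕ :=
  Nat.card {c : ConjClasses G // ∃ g : G, ConjClasses.mk g = c ∧ ¬ 3 ∣ orderOf g}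

/-- the bound on the class numbers of `3'`-subgroups -/
def Bd (G : Type) [Group G] (M : ℕ) : Prop := ∀ H : Subgroup G, ¬ 3 ∣ Nat.card H → kk H ≤ M

lemma l3_GG : 360 ≤ l3 GG := by
  have h1 : Nat.card II = 360 := by rw [Nat.card_eq_fintype_card, card_II]
  rw [← h1]
  haveI : Finite (ConjClasses GG) := Finite.of_surjective ConjClasses.mk ConjClasses.mk_surjective
  refine Nat.card_le_card_of_injective
    (fun s : II => (⟨ConjClasses.mk (thG s), thG s, rfl, thG_reg s⟩ :
      {c : ConjClasses GG // ∃ g : GG, ConjClasses.mk g = c ∧ ¬ 3 ∣ orderOf g})) ?_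
  intro s t hst
  have h2 : ConjClasses.mk (thG s) = ConjClasses.mk (thG t) := congrArg Subtype.val hst
  exact thG_inj (ConjClasses.mk_eq_mk_iff_isConj.mp h2)

lemma Bd_GG : Bd GG 359 := by
  intro H h3
  let e := H.equivMapOfInjective GG.subtype Subtype.val_injective
  haveI : Finite (H.map GG.subtype) := Finite.of_equiv _ e.toEquiv
  rw [kk_congr e]
  apply upper
  · rintro x ⟨y, hy, rfl⟩
    exact y.2
  · rw [← Nat.card_congr e.toEquiv]
    exact h3

lemma Bd_prod {A B : Type} [Group A] [Group B] [Finite A] [Finite B] {M N : ℕ}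
    (hA : Bd A M) (hB : Bd B N) : Bd (A × B) (M * N) := by
  intro H h3
  let π : H →* A := (MonoidHom.fst A B).comp H.subtype
  have hmul : Nat.card H = Nat.card π.range * Nat.card π.ker := by
    have h3 := π.ker.card_mul_index
    rw [Subgroup.index_ker] at h3
    rw [← h3, mul_comm]
  refine (gallagher π).trans (Nat.mul_le_mul ?_ ?_)
  · exact hA π.range (fun h => h3 (hmul ▸ Dvd.dvd.mul_right h _))
  · let ν : π.ker →* B := ((MonoidHom.snd A B).comp H.subtype).comp π.ker.subtype
    have hν : Function.Injective ν := by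
      intro a b hab
      have h1 : ((a : H) : A × B).1 = 1 := MonoidHom.mem_ker.mp a.2
      have h2 : ((b : H) : A × B).1 = 1 := MonoidHom.mem_ker.mp b.2
      have h3 : ((a : H) : A × B).2 = ((b : H) : A × B).2 := hab
      exact Subtype.ext (Subtype.ext (Prod.ext (h1.trans h2.symm) h3))
    let e := MonoidHom.ofInjective hν
    rw [kk_congr e]
    apply hB
    rw [← Nat.card_congr e.toEquiv]
    exact fun h => h3 (hmul ▸ Dvd.dvd.mul_left h _)

lemma l3_prod (A B : Type) [Group A] [Group B] [Finite A] [Finite B] :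
    l3 A * l3 B ≤ l3 (A × B) := by
  unfold l3
  rw [← Nat.card_prod]
  haveI : Finite (ConjClasses (A × B)) :=
    Finite.of_surjective ConjClasses.mk ConjClasses.mk_surjective
  refine Nat.card_le_card_of_injective
    (fun s : {c : ConjClasses A // ∃ g : A, ConjClasses.mk g = c ∧ ¬ 3 ∣ orderOf g} ×
      {c : ConjClasses B // ∃ g : B, ConjClasses.mk g = c ∧ ¬ 3 ∣ orderOf g} =>
      (⟨ConjClasses.mk (s.1.2.choose, s.2.2.choose), (s.1.2.choose, s.2.2.choose), rfl, ?_⟩ :
      {c : ConjClasses (A × B) // ∃ g : A × B, ConjClasses.mk g = c ∧ ¬ 3 ∣ orderOf g})) ?_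
  · rw [Prod.orderOf_mk]
    intro h
    rcases (Nat.Prime.dvd_lcm Nat.prime_three).mp h with h1 | h1
    · exact s.1.2.choose_spec.2 h1
    · exact s.2.2.choose_spec.2 h1
  · intro s t hst
    have h2 := congrArg Subtype.val hst
    obtain ⟨c, hc⟩ := isConj_iff.mp (ConjClasses.mk_eq_mk_iff_isConj.mp h2)
    apply Prod.ext
    · apply Subtype.ext
      rw [← s.1.2.choose_spec.1, ← t.1.2.choose_spec.1]
      exact ConjClasses.mk_eq_mk_iff_isConj.mpr (isConj_iff.mpr ⟨c.1, congrArg Prod.fst hc⟩)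
    · apply Subtype.ext
      rw [← s.2.2.choose_spec.1, ← t.2.2.choose_spec.1]
      exact ConjClasses.mk_eq_mk_iff_isConj.mpr (isConj_iff.mpr ⟨c.2, congrArg Prod.snd hc⟩)

lemma powers (n : ℕ) : ∃ (G : Type) (_ : Group G) (_ : Finite G), Bd G (359 ^ n) ∧ 360 ^ n ≤ l3 G := by
  induction n with
  | zero =>
    refine ⟨Unit, inferInstance, inferInstance, ?_, ?_⟩
    · intro H _
      rw [pow_zero]
      refine (kk_le_card H).trans ?_
      exact (Finite.card_le_one_iff_subsingleton).mpr inferInstance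
    · rw [pow_zero]
      haveI : Finite (ConjClasses Unit) := Finite.of_surjective ConjClasses.mk ConjClasses.mk_surjective
      haveI : Nonempty {c : ConjClasses Unit // ∃ g : Unit, ConjClasses.mk g = c ∧ ¬ 3 ∣ orderOf g} :=
        ⟨⟨ConjClasses.mk 1, 1, rfl, by rw [orderOf_one]; norm_num⟩⟩
      exact Nat.card_pos
  | succ n ih =>
    obtain ⟨G, hG, hF, h1, h2⟩ := ih
    refine ⟨G × GG, inferInstance, inferInstance, ?_, ?_⟩
    · rw [pow_succ]
      exact Bd_prod h1 Bd_GG
    · rw [pow_succ]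
      exact (Nat.mul_le_mul h2 l3_GG).trans (l3_prod G GG)

lemma growth (n : ℕ) : (359 + n) * 359 ^ n ≤ 359 * 360 ^ n := by
  induction n with
  | zero => norm_num
  | succ n ih =>
    calc (359 + (n + 1)) * 359 ^ (n + 1) ≤ 360 * ((359 + n) * 359 ^ n) := by
          rw [pow_succ]
          have h : (359 + (n + 1)) * 359 ≤ 360 * (359 + n) := by omega
          calc (359 + (n + 1)) * (359 ^ n * 359) = ((359 + (n + 1)) * 359) * 359 ^ n := by ring
            _ ≤ (360 * (359 + n)) * 359 ^ n := Nat.mul_le_mul_right _ h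
            _ = 360 * ((359 + n) * 359 ^ n) := by ring
      _ ≤ 360 * (359 * 360 ^ n) := Nat.mul_le_mul_left _ ih
      _ = 359 * 360 ^ (n + 1) := by rw [pow_succ]; ring

theorem unbounded (C : ℕ) : ∃ (G : Type) (_ : Group G) (_ : Finite G),
    ∀ H : Subgroup G, ¬ 3 ∣ Nat.card H → C * Nat.card (ConjClasses H) <
      Nat.card {c : ConjClasses G // ∃ g : G, ConjClasses.mk g = c ∧ ¬ 3 ∣ orderOf g} := by
  obtain ⟨G, hG, hF, h1, h2⟩ := powers (359 * C)
  refine ⟨G, hG, hF, fun H h3 => ?_⟩
  have h4 := h1 H h3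
  have h5 := growth (359 * C)
  have h6 : 0 < 359 ^ (359 * C) := Nat.pos_of_ne_zero (pow_ne_zero _ (by norm_num))
  have h7 : C * 359 ^ (359 * C) < 360 ^ (359 * C) := by
    have h8 : 359 * ((1 + C) * 359 ^ (359 * C)) ≤ 359 * 360 ^ (359 * C) := by
      calc 359 * ((1 + C) * 359 ^ (359 * C)) = (359 + 359 * C) * 359 ^ (359 * C) := by ring
        _ ≤ 359 * 360 ^ (359 * C) := h5
    have h9 : (1 + C) * 359 ^ (359 * C) ≤ 360 ^ (359 * C) :=
      Nat.le_of_mul_le_mul_left h8 (by norm_num)
    calc C * 359 ^ (359 * C) < (1 + C) * 359 ^ (359 * C) :=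
          Nat.mul_lt_mul_of_pos_right (by omega) h6
      _ ≤ 360 ^ (359 * C) := h9
  calc C * Nat.card (ConjClasses H) ≤ C * 359 ^ (359 * C) := Nat.mul_le_mul_left _ h4
    _ < 360 ^ (359 * C) := h7
    _ ≤ _ := h2

end Pool.Agent.X255.BC
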