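import Pool.Agent.X255.BC.Gal

set_option linter.style.haveILetI false
set_option linter.unusedSectionVars false
set_option linter.unusedVariables false

open scoped Classical

noncomputable section

namespace Pool.Agent.X255.BC

lemma arith5 (β a n K : ℕ) (h1 : 5 * β ≤ a) (h2 : a ≤ n)
    (h : 5 * K ≤ 5 * (β * n) + 5 * ((a - β) * a) + (n - a) * n) : 5 * K ≤ n * n + 4 * (a * a) := by
  obtain ⟨s, hs⟩ : ∃ s, a = 5 * β + s := ⟨a - 5 * β, by omega⟩
  obtain ⟨t, ht⟩ : ∃ t, n = a + t := ⟨n - a, by omega⟩
  have e1 : a - β = 4 * β + s := by omega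
  have e2 : n - a = t := by omega
  rw [e1, e2] at h
  have e3 : 5 * (β * n) + 5 * ((4 * β + s) * a) + t * n + s * t = n * n + 4 * (a * a) := by
    rw [ht, hs]
    ring
  have := Nat.zero_le (s * t)
  omega

/-- Let `r` be an element of order `5` of `U` generating a normal subgroup, with
`|C_U(r)| ≤ 10`. Then `U` has at most `10` classes. -/
theorem five {U : Type} [Group U] [Finite U] (r : U) (hr : orderOf r = 5)
    (hN : (Subgroup.zpowers r).Normal)
    (hc : Nat.card (Subgroup.centralizer ({r} : Set U)) ≤ 10) : kk U ≤ 10 := by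
  haveI := Fintype.ofFinite U
  haveI : Fact (Nat.Prime 5) := ⟨by norm_num⟩
  set R := Subgroup.zpowers r with hR
  set A := Subgroup.centralizer ({r} : Set U) with hA
  set a := Nat.card A with ha
  set n := Nat.card U with hn
  have hRc : Nat.card R = 5 := by rw [hR, Nat.card_zpowers, hr]
  have memA : ∀ x, x ∈ A ↔ Commute x r := fun x => by
    rw [hA, Subgroup.mem_centralizer_singleton_iff, commute_iff_eq]
  have hRA : R ≤ A := by
    intro x hx
    obtain ⟨k, rfl⟩ := Subgroup.mem_zpowers_iff.mp hx
    rw [memA]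
    exact (Commute.refl r).zpow_left k
  have ha5 : 5 ∣ a := by
    rw [← hRc]
    exact Subgroup.card_dvd_of_le hRA
  have ha0 : 0 < a := Nat.card_pos
  have ha' : a = 5 ∨ a = 10 := by omega
  -- elements of `R \ {1}` generate `R`
  have gen : ∀ x ∈ R, x ≠ 1 → r ∈ Subgroup.zpowers x := by
    intro x hx hx1
    have h1 := mem_zpowers_of_prime_card (G := R) (p := 5) hRc (g := ⟨x, hx⟩)
      (g' := ⟨r, Subgroup.mem_zpowers r⟩) (fun h => hx1 (congrArg Subtype.val h))
    obtain ⟨k, hk⟩ := Subgroup.mem_zpowers_iff.mp h1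
    exact Subgroup.mem_zpowers_iff.mpr ⟨k, congrArg Subtype.val hk⟩
  have comm_r : ∀ x ∈ R, x ≠ 1 → ∀ y, Commute y x → y ∈ A := by
    intro x hx hx1 y hy
    obtain ⟨k, hk⟩ := Subgroup.mem_zpowers_iff.mp (gen x hx hx1)
    rw [memA, ← hk]
    exact hy.zpow_right k
  have hce : ce r = a := ce_eq r
  -- the class of `r` has at most four elements
  have hna : n ≤ 4 * a := by
    have h1 := class_mul r
    rw [hce] at h1
    have h2 : (Finset.univ.filter fun y : U => IsConj r y).card ≤ 4 := by
      have h3 : (Finset.univ.filter fun y : U => IsConj r y) ⊆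
          (Finset.univ.filter fun y : U => y ∈ R).erase 1 := by
        intro y hy
        have hy' := (Finset.mem_filter.mp hy).2
        obtain ⟨c, hc'⟩ := isConj_iff.mp hy'
        rw [Finset.mem_erase, Finset.mem_filter]
        refine ⟨?_, Finset.mem_univ _, ?_⟩
        · rintro rfl
          have h4 : r = 1 := isConj_one_left.mp hy'
          rw [h4, orderOf_one] at hr
          omega
        · rw [← hc']
          exact hN.conj_mem r (Subgroup.mem_zpowers r) c
      refine (Finset.card_le_card h3).trans ?_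
      rw [Finset.card_erase_of_mem (by simp [R.one_mem])]
      have h5 : (Finset.univ.filter fun y : U => y ∈ R).card = 5 := by
        rw [← Fintype.card_subtype, ← Nat.card_eq_fintype_card]
        exact hRc
      rw [h5]
    calc n = (Finset.univ.filter fun y : U => IsConj r y).card * a := h1.symm
      _ ≤ 4 * a := Nat.mul_le_mul_right _ h2
  have han : a ≤ n := Nat.le_of_dvd Nat.card_pos (Subgroup.card_subgroup_dvd_card A)
  -- elements outside `A`
  have hout : ∀ x, x ∉ A → 5 * ce x ≤ n := by
    intro x hx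
    rw [hn, ← class_mul x]
    apply Nat.mul_le_mul_right
    have h5 : (Finset.univ.filter fun y : U => y ∈ R).card = 5 := by
      rw [← Fintype.card_subtype, ← Nat.card_eq_fintype_card]
      exact hRc
    rw [← h5]
    refine Finset.card_le_card_of_injOn (fun ρ => ρ * x * ρ⁻¹) ?_ ?_
    · intro ρ _
      simp only [Finset.coe_filter, Finset.mem_univ, true_and, Set.mem_ofPred_eq]
      exact isConj_iff.mpr ⟨ρ, rfl⟩
    · intro ρ hρ σ hσ he
      simp only [Finset.coe_filter, Finset.mem_univ, true_and, Set.mem_ofPred_eq] at hρ hσ he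
      by_contra hne
      apply hx
      refine comm_r (σ⁻¹ * ρ) (R.mul_mem (R.inv_mem hσ) hρ) ?_ x ?_
      · intro h
        exact hne (inv_mul_eq_one.mp h).symm
      · rw [commute_iff_eq]
        have h6 : σ⁻¹ * (ρ * x * ρ⁻¹) * ρ = σ⁻¹ * (σ * x * σ⁻¹) * ρ := by rw [he]
        have h7 : σ⁻¹ * (ρ * x * ρ⁻¹) * ρ = σ⁻¹ * ρ * x := by group
        have h8 : σ⁻¹ * (σ * x * σ⁻¹) * ρ = x * (σ⁻¹ * ρ) := by group
        rw [← h7, h6, h8]
  -- squares of elements of `A` lie in `R`
  have hsq : ∀ x ∈ A, x * x ∈ R := by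
    intro x hx
    have h1 : (R.subgroupOf A).index * 5 = a := by
      have h2 := (R.subgroupOf A).index_mul_card
      rw [Nat.card_congr (Subgroup.subgroupOfEquivOfLe hRA).toEquiv, hRc] at h2
      exact h2
    rcases ha' with h2 | h2
    · have h3 : (R.subgroupOf A).index = 1 := by omega
      have h4 : R.subgroupOf A = ⊤ := Subgroup.index_eq_one.mp h3
      have h5 : (⟨x, hx⟩ : A) * ⟨x, hx⟩ ∈ R.subgroupOf A := by
        rw [h4]
        trivial
      exact Subgroup.mem_subgroupOf.mp h5
    · have h3 : (R.subgroupOf A).index = 2 := by omega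
      exact Subgroup.mem_subgroupOf.mp (Subgroup.mul_self_mem_of_index_two h3 ⟨x, hx⟩)
  have hin : ∀ x ∈ A, x * x ≠ 1 → ce x ≤ a := by
    intro x hx hx2
    have h1 : ce x = Nat.card (Subgroup.centralizer ({x} : Set U)) := ce_eq x
    rw [h1]
    apply Nat.card_le_card_of_injective
      (fun y : Subgroup.centralizer ({x} : Set U) => (⟨y, comm_r (x * x) (hsq x hx) hx2 y (by
        have h2 : Commute (y : U) x := by
          rw [commute_iff_eq]
          exact Subgroup.mem_centralizer_singleton_iff.mp y.2
        exact h2.mul_right h2)⟩ : A))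
    intro y z h
    exact Subtype.ext (congrArg (fun w : A => (w : U)) h)
  -- the number of `x ∈ A` with `x² = 1`
  set β := (Finset.univ.filter fun x : U => x ∈ A ∧ x * x = 1).card with hβ
  have hβa : 5 * β ≤ a := by
    have h5 : (Finset.univ.filter fun y : U => y ∈ R).card = 5 := by
      rw [← Fintype.card_subtype, ← Nat.card_eq_fintype_card]
      exact hRc
    have hac : (Finset.univ.filter fun y : U => y ∈ A).card = a := by
      rw [← Fintype.card_subtype, ← Nat.card_eq_fintype_card]
    rw [← h5, hβ, ← Finset.card_product, ← hac]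
    refine Finset.card_le_card_of_injOn (fun p => p.1 * p.2) ?_ ?_
    · intro p hp
      simp only [Finset.coe_product, Finset.coe_filter, Finset.mem_univ, true_and, Set.mem_prod,
        Set.mem_ofPred_eq] at hp ⊢
      exact A.mul_mem (hRA hp.1) hp.2.1
    · intro p hp q hq he
      simp only [Finset.coe_product, Finset.coe_filter, Finset.mem_univ, true_and, Set.mem_prod,
        Set.mem_ofPred_eq] at hp hq he
      have cm : ∀ ρ ∈ R, ∀ b ∈ A, Commute ρ b := by
        intro ρ hρ b hb
        obtain ⟨k, rfl⟩ := Subgroup.mem_zpowers_iff.mp hρ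
        exact (((memA b).mp hb).symm).zpow_left k
      have s1 : ∀ ρ ∈ R, ∀ b ∈ A, b * b = 1 → (ρ * b) * (ρ * b) = ρ * ρ := by
        intro ρ hρ b hb hb2
        have h6 : b * ρ = ρ * b := (cm ρ hρ b hb).eq.symm
        calc (ρ * b) * (ρ * b) = ρ * (b * ρ) * b := by group
          _ = ρ * ρ * (b * b) := by rw [h6]; group
          _ = ρ * ρ := by rw [hb2, mul_one]
      have h6 : p.1 * p.1 = q.1 * q.1 := by
        rw [← s1 p.1 hp.1 p.2 hp.2.1 hp.2.2, ← s1 q.1 hq.1 q.2 hq.2.1 hq.2.2, he]
      have pow5 : ∀ ρ ∈ R, ρ ^ 5 = 1 := by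
        intro ρ hρ
        have h7 : (⟨ρ, hρ⟩ : R) ^ Nat.card R = 1 := pow_card_eq_one'
        rw [hRc] at h7
        exact congrArg Subtype.val h7
      have h7 : p.1 = q.1 := by
        have e1 : ∀ ρ ∈ R, ρ = (ρ * ρ) ^ 3 := by
          intro ρ hρ
          have : (ρ * ρ) ^ 3 = ρ ^ 5 * ρ := by
            rw [← pow_two, ← pow_mul, ← pow_succ]
          rw [this, pow5 ρ hρ, one_mul]
        rw [e1 p.1 hp.1, e1 q.1 hq.1, h6]
      have h8 : p.2 = q.2 := by
        rw [h7] at he
        exact mul_left_cancel he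
      exact Prod.ext h7 h8
  -- the count
  have hcp : 5 * cp U ≤ 5 * (β * n) + 5 * ((a - β) * a) + (n - a) * n := by
    rw [cp_sum]
    change 5 * ∑ x : U, ce x ≤ _
    have hac : (Finset.univ.filter fun y : U => y ∈ A).card = a := by
      rw [← Fintype.card_subtype, ← Nat.card_eq_fintype_card]
    have huniv : (Finset.univ : Finset U).card = n := by
      rw [Finset.card_univ, ← Nat.card_eq_fintype_card]
    rw [← Finset.sum_filter_add_sum_filter_not Finset.univ (fun x : U => x ∈ A),
      ← Finset.sum_filter_add_sum_filter_not (Finset.univ.filter (fun x : U => x ∈ A))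
        (fun x : U => x * x = 1), Finset.filter_filter, Finset.filter_filter]
    have c1 : ∑ x ∈ Finset.univ.filter (fun x : U => x ∈ A ∧ x * x = 1), ce x ≤ β * n := by
      rw [← smul_eq_mul, hβ]
      apply Finset.sum_le_card_nsmul
      intro x _
      exact Nat.le_of_dvd Nat.card_pos (ce_dvd x)
    have c2 : ∑ x ∈ Finset.univ.filter (fun x : U => x ∈ A ∧ ¬ x * x = 1), ce x ≤ (a - β) * a := by
      have h1 : (Finset.univ.filter (fun x : U => x ∈ A ∧ ¬ x * x = 1)).card = a - β := by
        have h2 := Finset.card_filter_add_card_filter_not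
          (s := Finset.univ.filter (fun x : U => x ∈ A)) (fun x : U => x * x = 1)
        rw [Finset.filter_filter, Finset.filter_filter, hac] at h2
        omega
      rw [← smul_eq_mul, ← h1]
      apply Finset.sum_le_card_nsmul
      intro x hx
      have hx' := (Finset.mem_filter.mp hx).2
      exact hin x hx'.1 hx'.2
    have c3 : 5 * ∑ x ∈ Finset.univ.filter (fun x : U => ¬ x ∈ A), ce x ≤ (n - a) * n := by
      have h1 : (Finset.univ.filter (fun x : U => ¬ x ∈ A)).card = n - a := by
        have h2 := Finset.card_filter_add_card_filter_not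
          (s := (Finset.univ : Finset U)) (fun x : U => x ∈ A)
        rw [hac, huniv] at h2
        omega
      rw [Finset.mul_sum, ← smul_eq_mul, ← h1]
      apply Finset.sum_le_card_nsmul
      intro x hx
      exact hout x (Finset.mem_filter.mp hx).2
    omega
  rw [cp_eq] at hcp
  have hkey : 5 * (kk U * n) ≤ n * n + 4 * (a * a) := by
    exact arith5 β a n (kk U * n) hβa han hcp
  have hfin : n * n + 4 * (a * a) ≤ 50 * n := by
    have h0 : 0 < n := Nat.card_pos
    rcases ha' with h2 | h2 <;> rw [h2] at hna han ⊢ <;> nlinarith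
  have h0 : 0 < n := Nat.card_pos
  nlinarith

end Pool.Agent.X255.BC
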