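import Pool.Agent.X255.BC.XH
import Pool.Agent.X255.BC.EC

/-!
# The fibre product `G = X ×_{±1} E`: the upper bound for subgroups of order prime to three
-/

set_option linter.style.longLine false
set_option linter.style.haveILetI false
set_option linter.unusedSectionVars false
set_option linter.unusedVariables false

open scoped Classical Pointwise

noncomputable section

namespace Pool.Agent.X255.BC

open EE (f)

/-! ### commuting pairs in `E` -/

/-- the number of commuting pairs in `E` with prescribed signs -/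
def ME (i j : ℤˣ) : ℕ := Nat.card {q : EE × EE // f q.1 = i ∧ f q.2 = j ∧ q.1 * q.2 = q.2 * q.1}

lemma ME00 : ME 1 1 = 2176 := by
  unfold ME
  rw [Nat.card_eq_fintype_card, Fintype.card_subtype]
  refine Eq.trans (congrArg Finset.card (Finset.ext fun q => ?_)) EE.c00
  rw [Finset.mem_filter, Finset.mem_filter]
  refine and_congr Iff.rfl ?_
  rw [EE.f_one_iff, EE.f_one_iff, EE.comm_iff]

lemma ME01 : ME 1 (-1) = 2048 := by
  unfold ME
  rw [Nat.card_eq_fintype_card, Fintype.card_subtype]
  refine Eq.trans (congrArg Finset.card (Finset.ext fun q => ?_)) EE.c01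
  rw [Finset.mem_filter, Finset.mem_filter]
  refine and_congr Iff.rfl ?_
  rw [EE.f_one_iff, EE.f_neg_iff, EE.comm_iff]

lemma ME10 : ME (-1) 1 = 2048 := by
  unfold ME
  rw [Nat.card_eq_fintype_card, Fintype.card_subtype]
  refine Eq.trans (congrArg Finset.card (Finset.ext fun q => ?_)) EE.c10
  rw [Finset.mem_filter, Finset.mem_filter]
  refine and_congr Iff.rfl ?_
  rw [EE.f_one_iff, EE.f_neg_iff, EE.comm_iff]

lemma ME11 : ME (-1) (-1) = 2048 := by
  unfold ME
  rw [Nat.card_eq_fintype_card, Fintype.card_subtype]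
  refine Eq.trans (congrArg Finset.card (Finset.ext fun q => ?_)) EE.c11
  rw [Finset.mem_filter, Finset.mem_filter]
  refine and_congr Iff.rfl ?_
  rw [EE.f_neg_iff, EE.f_neg_iff, EE.comm_iff]

lemma ker_f_card : Nat.card f.ker = 64 := by
  rw [← EE.card_f0, ← Nat.card_eq_fintype_card]
  refine Nat.card_congr (Equiv.subtypeEquivRight fun y => ?_)
  rw [MonoidHom.mem_ker, EE.f_one_iff]

lemma kk_ker_f : kk f.ker = 34 := by
  have h := cp_eq f.ker
  rw [ker_f_card] at h
  have h2 : cp f.ker = 2176 := by
    rw [← ME00]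
    refine Nat.card_congr ⟨fun p => ⟨((p.1.1 : EE), (p.1.2 : EE)), ?_, ?_, ?_⟩,
      fun q => ⟨(⟨q.1.1, ?_⟩, ⟨q.1.2, ?_⟩), ?_⟩, ?_, ?_⟩
    · exact MonoidHom.mem_ker.mp p.1.1.2
    · exact MonoidHom.mem_ker.mp p.1.2.2
    · exact congrArg Subtype.val p.2.eq
    · exact MonoidHom.mem_ker.mpr q.2.1
    · exact MonoidHom.mem_ker.mpr q.2.2.1
    · rw [commute_iff_eq]
      exact Subtype.ext q.2.2.2
    · intro p
      rfl
    · intro q
      rfl
  rw [h2] at h
  omega

/-! ### the fibre product -/

/-- the fibre product -/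
def GG : Subgroup (X × EE) :=
  (eps.comp (MonoidHom.fst X EE)).eqLocus (f.comp (MonoidHom.snd X EE))

lemma mem_GG (g : X × EE) : g ∈ GG ↔ eps g.1 = f g.2 := Iff.rfl

/-- the subgroup above `P` -/
def TT : Subgroup (X × EE) := GG ⊓ PS.comap (MonoidHom.fst X EE)

lemma mem_TT (g : X × EE) : g ∈ TT ↔ eps g.1 = f g.2 ∧ g.1 ∈ PS := Iff.rfl

lemma cp_TT : cp TT = 735232 := by
  have e1 : cp TT = Nat.card (Σ x : PS × PS, {q : EE × EE // x.1 * x.2 = x.2 * x.1 ∧
      f q.1 = eps (x.1 : X) ∧ f q.2 = eps (x.2 : X) ∧ q.1 * q.2 = q.2 * q.1}) := by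
    unfold cp
    refine Nat.card_congr ⟨fun p => ⟨(⟨p.1.1.1.1, ?_⟩, ⟨p.1.2.1.1, ?_⟩),
      ⟨(p.1.1.1.2, p.1.2.1.2), ?_, ?_, ?_, ?_⟩⟩,
      fun w => ⟨(⟨((w.1.1 : X), w.2.1.1), ?_⟩, ⟨((w.1.2 : X), w.2.1.2), ?_⟩), ?_⟩, ?_, ?_⟩
    · exact p.1.1.2.2
    · exact p.1.2.2.2
    · apply Subtype.ext
      exact congrArg (fun t : TT => (t : X × EE).1) p.2.eq
    · exact p.1.1.2.1.symm
    · exact p.1.2.2.1.symm
    · exact congrArg (fun t : TT => (t : X × EE).2) p.2.eq
    · exact ⟨w.2.2.2.1.symm, w.1.1.2⟩
    · exact ⟨w.2.2.2.2.1.symm, w.1.2.2⟩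
    · rw [commute_iff_eq]
      apply Subtype.ext
      apply Prod.ext
      · exact congrArg Subtype.val w.2.2.1
      · exact w.2.2.2.2.2
    · intro p
      rfl
    · intro w
      rfl
  rw [e1, Nat.card_sigma, Fintype.sum_prod_type]
  have h1 : ∀ x y : PS, Nat.card {q : EE × EE // x * y = y * x ∧
      f q.1 = eps (x : X) ∧ f q.2 = eps (y : X) ∧ q.1 * q.2 = q.2 * q.1} =
      bif cmC (enc (x : X)) (enc (y : X)) then
        (bif Nat.beq (dg (enc (x : X)) 10) 10 && Nat.beq (dg (enc (y : X)) 10) 10 then 2176 else 2048)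
        else 0 := by
    intro x y
    have hd : ∀ z : X, Nat.beq (dg (enc (z : PP)) 10) 10 = true ↔ eps z = 1 := by
      intro z
      rw [eps_one_iff]
      exact dgv z 10 10 (by norm_num)
    by_cases h : x * y = y * x
    · have h2 : cmC (enc (x : X)) (enc (y : X)) = true :=
        (cmC_iff x y).mpr (congrArg Subtype.val h)
      rw [h2, cond_true]
      have h3 : Nat.card {q : EE × EE // x * y = y * x ∧
        f q.1 = eps (x : X) ∧ f q.2 = eps (y : X) ∧ q.1 * q.2 = q.2 * q.1} =
          ME (eps (x : X)) (eps (y : X)) := by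
        unfold ME
        refine Nat.card_congr (Equiv.subtypeEquivRight fun q => ?_)
        simp only [h, true_and]
      rw [h3]
      have hn : ¬ (-1 : ℤˣ) = 1 := by decide
      rcases Int.units_eq_one_or (eps (x : X)) with a | a <;>
        rcases Int.units_eq_one_or (eps (y : X)) with b | b
      · rw [(hd _).mpr a, (hd _).mpr b, a, b, ME00]
        rfl
      · have b' : Nat.beq (dg (enc ((y : X) : PP)) 10) 10 = false := by
          rw [← Bool.not_eq_true, hd, b]
          exact hn
        rw [(hd _).mpr a, b', a, b, ME01]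
        rfl
      · have a' : Nat.beq (dg (enc ((x : X) : PP)) 10) 10 = false := by
          rw [← Bool.not_eq_true, hd, a]
          exact hn
        rw [a', (hd _).mpr b, a, b, ME10]
        rfl
      · have a' : Nat.beq (dg (enc ((x : X) : PP)) 10) 10 = false := by
          rw [← Bool.not_eq_true, hd, a]
          exact hn
        have b' : Nat.beq (dg (enc ((y : X) : PP)) 10) 10 = false := by
          rw [← Bool.not_eq_true, hd, b]
          exact hn
        rw [a', b', a, b, ME11]
        rfl
    · have h2 : cmC (enc (x : X)) (enc (y : X)) = false := by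
        rw [← Bool.not_eq_true, cmC_iff]
        intro h3
        exact h (Subtype.ext h3)
      rw [h2, cond_false, Nat.card_eq_zero]
      left
      exact ⟨fun q => h q.2.1⟩
  rw [Finset.sum_congr rfl fun x _ => Finset.sum_congr rfl fun y _ => h1 x y]
  rw [Finset.sum_congr rfl fun (x : PS) _ => PS_sum (fun d => bif cmC (enc (x : X)) d then
        (bif Nat.beq (dg (enc (x : X)) 10) 10 && Nat.beq (dg d 10) 10 then 2176 else 2048)
        else 0),
    PS_sum (fun c => (LP.map fun d => bif cmC c d then
    (bif Nat.beq (dg c 10) 10 && Nat.beq (dg d 10) 10 then 2176 else 2048) else 0).sum)]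
  exact ck_M

/-- the upper bound -/
theorem upper (H : Subgroup (X × EE)) (hG : H ≤ GG) (h3 : ¬ 3 ∣ Nat.card H) : kk H ≤ 359 := by
  let π : H →* X := (MonoidHom.fst X EE).comp H.subtype
  have hgal := gallagher π
  have hmul : Nat.card H = Nat.card π.range * Nat.card π.ker := by
    have h3 := π.ker.card_mul_index
    rw [Subgroup.index_ker] at h3
    rw [← h3, mul_comm]
  have hU3 : ¬ 3 ∣ Nat.card π.range := fun h => h3 (hmul ▸ Dvd.dvd.mul_right h _)
  -- the kernel
  have hker : ∀ h : π.ker, f (h : H).1.2 = 1 := by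
    intro h
    have h1 : ((h : H) : X × EE).1 = 1 := MonoidHom.mem_ker.mp h.2
    have h2 := (mem_GG _).mp (hG (h : H).2)
    rw [h1, map_one] at h2
    exact h2.symm
  let ν : π.ker →* f.ker :=
    { toFun := fun h => ⟨(h : H).1.2, MonoidHom.mem_ker.mpr (hker h)⟩
      map_one' := rfl
      map_mul' := fun a b => rfl }
  have hν : Function.Injective ν := by
    intro a b hab
    have h1 : ((a : H) : X × EE).1 = 1 := MonoidHom.mem_ker.mp a.2
    have h2 : ((b : H) : X × EE).1 = 1 := MonoidHom.mem_ker.mp b.2
    have h3 : ((a : H) : X × EE).2 = ((b : H) : X × EE).2 := congrArg Subtype.val hab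
    exact Subtype.ext (Subtype.ext (Prod.ext (h1.trans h2.symm) h3))
  have hdvd : Nat.card π.ker ∣ 64 := by
    rw [← ker_f_card]
    exact Subgroup.card_dvd_of_injective ν hν
  have hk1 : Nat.card π.ker ≠ 64 → kk π.ker ≤ 32 := by
    intro hne
    refine (kk_le_card _).trans ?_
    have h4 : Nat.card π.ker ∈ Nat.divisors 64 := Nat.mem_divisors.mpr ⟨hdvd, by norm_num⟩
    have h5 : Nat.divisors 64 = {1, 2, 4, 8, 16, 32, 64} := by decide
    rw [h5] at h4
    simp only [Finset.mem_insert, Finset.mem_singleton] at h4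
    omega
  have hk2 : Nat.card π.ker = 64 → Function.Bijective ν := by
    intro he
    rw [Nat.bijective_iff_injective_and_card]
    exact ⟨hν, by rw [he, ker_f_card]⟩
  have hk3 : kk π.ker ≤ 34 := by
    by_cases he : Nat.card π.ker = 64
    · rw [kk_congr (MulEquiv.ofBijective ν (hk2 he)), kk_ker_f]
    · exact (hk1 he).trans (by norm_num)
  by_cases h32 : Nat.card π.range = 32
  · have h11 := kk32 π.range h32
    by_cases h64 : Nat.card π.ker = 64
    · -- the extreme case
      have hcard : Nat.card H = 2048 := by rw [hmul, h32, h64]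
      have hfull : ∀ y : EE, f y = 1 → ((1 : X), y) ∈ H := by
        intro y hy
        obtain ⟨h, hh⟩ := (hk2 h64).2 ⟨y, MonoidHom.mem_ker.mpr hy⟩
        have h1 : ((h : H) : X × EE).1 = 1 := MonoidHom.mem_ker.mp h.2
        have h2 : ((h : H) : X × EE).2 = y := congrArg Subtype.val hh
        have h3 : ((h : H) : X × EE) = (1, y) := Prod.ext h1 h2
        rw [← h3]
        exact (h : H).2
      have hmem : ∀ g : X × EE, g ∈ H ↔ eps g.1 = f g.2 ∧ g.1 ∈ π.range := by
        intro g
        constructor
        · intro hg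
          exact ⟨hG hg, ⟨⟨g, hg⟩, rfl⟩⟩
        · rintro ⟨hg1, ⟨h, hh⟩⟩
          have h1 : (h : X × EE).1 = g.1 := hh
          have h2 := (mem_GG _).mp (hG h.2)
          have h4 : f ((h : X × EE).2⁻¹ * g.2) = 1 := by
            rw [map_mul, map_inv, ← h2, ← hg1, h1, inv_mul_cancel]
          have h5 := H.mul_mem h.2 (hfull _ h4)
          have h6 : (h : X × EE) * ((1 : X), (h : X × EE).2⁻¹ * g.2) = g := by
            apply Prod.ext
            · change (h : X × EE).1 * 1 = g.1
              rw [mul_one, h1]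
            · change (h : X × EE).2 * ((h : X × EE).2⁻¹ * g.2) = g.2
              rw [mul_inv_cancel_left]
          rw [h6] at h5
          exact h5
      obtain ⟨c, hc⟩ := conj32 π.range h32
      have hec : ∀ x : X, eps (c * x * c⁻¹) = eps x := by
        intro x
        rw [map_mul, map_mul, map_inv, mul_comm (eps c), mul_inv_cancel_right]
      let e : H ≃* TT :=
        { toFun := fun h => ⟨(c * (h : X × EE).1 * c⁻¹, (h : X × EE).2), by
            have h1 := (hmem _).mp h.2
            refine ⟨?_, (hc _).mp h1.2⟩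
            change eps (c * (h : X × EE).1 * c⁻¹) = f (h : X × EE).2
            rw [hec]
            exact h1.1⟩
          invFun := fun t => ⟨(c⁻¹ * (t : X × EE).1 * c, (t : X × EE).2), by
            have h1 := (mem_TT _).mp t.2
            rw [hmem]
            have h2 : c * (c⁻¹ * (t : X × EE).1 * c) * c⁻¹ = (t : X × EE).1 := by group
            refine ⟨?_, ?_⟩
            · change eps (c⁻¹ * (t : X × EE).1 * c) = f (t : X × EE).2
              rw [← hec, h2]
              exact h1.1
            · change c⁻¹ * (t : X × EE).1 * c ∈ π.range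
              rw [hc, h2]
              exact h1.2⟩
          left_inv := by
            intro h
            apply Subtype.ext
            apply Prod.ext
            · change c⁻¹ * (c * (h : X × EE).1 * c⁻¹) * c = (h : X × EE).1
              group
            · rfl
          right_inv := by
            intro t
            apply Subtype.ext
            apply Prod.ext
            · change c * (c⁻¹ * (t : X × EE).1 * c) * c⁻¹ = (t : X × EE).1
              group
            · rfl
          map_mul' := by
            intro a b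
            apply Subtype.ext
            apply Prod.ext
            · change c * ((a : X × EE).1 * (b : X × EE).1) * c⁻¹ =
                (c * (a : X × EE).1 * c⁻¹) * (c * (b : X × EE).1 * c⁻¹)
              group
            · rfl }
      have h5 := cp_eq TT
      rw [cp_TT, ← Nat.card_congr e.toEquiv, hcard] at h5
      rw [kk_congr e]
      omega
    · have := hk1 h64
      calc kk H ≤ kk π.range * kk π.ker := hgal
        _ ≤ 11 * 32 := Nat.mul_le_mul h11.le this
        _ ≤ 359 := by norm_num
  · have := kk_le_ten π.range hU3 h32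
    calc kk H ≤ kk π.range * kk π.ker := hgal
      _ ≤ 10 * 34 := Nat.mul_le_mul this hk3
      _ ≤ 359 := by norm_num

end Pool.Agent.X255.BC
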