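import Mathlib

/-!
# Class numbers: Gallagher's inequality and two small cases
-/

set_option linter.style.haveILetI false
set_option linter.unusedSectionVars false
set_option linter.unusedVariables false

open scoped Classical

noncomputable section

namespace Pool.Agent.X255.BC

/-- the number of commuting pairs -/
def cp (H : Type) [Group H] : ℕ := Nat.card {p : H × H // Commute p.1 p.2}

/-- the class number -/
def kk (H : Type) [Group H] : ℕ := Nat.card (ConjClasses H)

lemma cp_eq (H : Type) [Group H] : cp H = kk H * Nat.card H :=
  card_comm_eq_card_conjClasses_mul_card H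

section

variable {H M : Type} [Group H] [Group M] [Fintype H] [Fintype M]

lemma cp_sum (H : Type) [Group H] [Fintype H] :
    cp H = ∑ x : H, (Finset.univ.filter fun y : H => Commute x y).card := by
  unfold cp
  rw [Nat.card_eq_fintype_card, Fintype.card_subtype]
  rw [← Finset.univ_product_univ, Finset.card_filter, Finset.sum_product]
  simp only [Finset.card_filter]

lemma fiber_le (f : H →* M) (x : H) (w : M) :
    (Finset.univ.filter fun y : H => Commute x y ∧ f y = w).card ≤
      (Finset.univ.filter fun y : H => Commute x y ∧ f y = 1).card := by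
  rcases (Finset.univ.filter fun y : H => Commute x y ∧ f y = w).eq_empty_or_nonempty with h | h
  · rw [h]
    simp
  · obtain ⟨y0, hy0⟩ := h
    simp only [Finset.mem_filter, Finset.mem_univ, true_and] at hy0
    refine Finset.card_le_card_of_injOn (fun y => y0⁻¹ * y) ?_ ?_
    · intro y hy
      simp only [Finset.coe_filter, Finset.mem_univ, true_and, Set.mem_ofPred_eq] at hy ⊢
      refine ⟨(hy0.1.inv_right).mul_right hy.1, ?_⟩
      rw [map_mul, map_inv, hy0.2, hy.2, inv_mul_cancel]
    · intro a _ b _ hab
      exact mul_left_cancel hab

lemma cp_le (f : H →* M) : cp H ≤ cp M * cp f.ker := by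
  have h1 : ∀ x : H, (Finset.univ.filter fun y : H => Commute x y).card ≤
      (Finset.univ.filter fun w : M => Commute (f x) w).card *
        (Finset.univ.filter fun y : H => Commute x y ∧ f y = 1).card := by
    intro x
    rw [← smul_eq_mul, ← Finset.sum_const]
    rw [Finset.card_eq_sum_card_fiberwise (f := f)
      (t := Finset.univ.filter fun w : M => Commute (f x) w)]
    · refine Finset.sum_le_sum fun w _ => ?_
      rw [Finset.filter_filter]
      exact fiber_le f x w
    · intro y hy
      simp only [Finset.coe_filter, Finset.mem_univ, true_and, Set.mem_ofPred_eq] at hy ⊢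
      exact hy.map f
  have h2 : ∀ v : M, ∑ x ∈ Finset.univ.filter (fun x : H => f x = v),
      (Finset.univ.filter fun y : H => Commute x y ∧ f y = 1).card ≤ cp f.ker := by
    intro v
    have h3 : ∑ x ∈ Finset.univ.filter (fun x : H => f x = v),
        (Finset.univ.filter fun y : H => Commute x y ∧ f y = 1).card =
        ∑ y ∈ Finset.univ.filter (fun y : H => f y = 1),
          (Finset.univ.filter fun x : H => Commute y x ∧ f x = v).card := by
      simp only [Finset.card_filter, Finset.sum_filter]
      rw [← Finset.sum_filter, ← Finset.sum_filter]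
      simp only [Finset.sum_filter]
      have h4 : ∀ x : H, (if f x = v then ∑ y : H, (if Commute x y ∧ f y = 1 then 1 else 0) else 0)
          = ∑ y : H, (if f x = v ∧ Commute x y ∧ f y = 1 then 1 else 0) := by
        intro x
        by_cases hx : f x = v
        · simp [hx]
        · simp [hx]
      have h5 : ∀ y : H, (if f y = 1 then ∑ x : H, (if Commute y x ∧ f x = v then 1 else 0) else 0)
          = ∑ x : H, (if f x = v ∧ Commute x y ∧ f y = 1 then 1 else 0) := by
        intro y
        by_cases hy : f y = 1
        · simp only [hy, if_true, and_true]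
          refine Finset.sum_congr rfl fun x _ => ?_
          congr 1
          apply propext
          rw [commute_iff_eq, commute_iff_eq]
          constructor
          · rintro ⟨h6, h7⟩
            exact ⟨h7, h6.symm⟩
          · rintro ⟨h6, h7⟩
            exact ⟨h7.symm, h6⟩
        · simp [hy]
      rw [Finset.sum_congr rfl fun x _ => h4 x, Finset.sum_congr rfl fun y _ => h5 y]
      exact Finset.sum_comm
    rw [h3]
    have h4 : ∑ y ∈ Finset.univ.filter (fun y : H => f y = 1),
          (Finset.univ.filter fun x : H => Commute y x ∧ f x = v).card ≤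
        ∑ y ∈ Finset.univ.filter (fun y : H => f y = 1),
          (Finset.univ.filter fun x : H => Commute y x ∧ f x = 1).card :=
      Finset.sum_le_sum fun y _ => fiber_le f y v
    refine h4.trans (le_of_eq ?_)
    rw [cp_sum]
    have h5 : ∑ y ∈ Finset.univ.filter (fun y : H => f y = 1),
        (Finset.univ.filter fun x : H => Commute y x ∧ f x = 1).card =
        ∑ y : {y : H // f y = 1},
          (Finset.univ.filter fun x : H => Commute (y : H) x ∧ f x = 1).card := by
      rw [Finset.sum_subtype (Finset.univ.filter (fun y : H => f y = 1))
        (p := fun y => f y = 1)]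
      intro y
      simp
    rw [h5]
    refine Fintype.sum_equiv (Equiv.subtypeEquivRight fun y => (MonoidHom.mem_ker).symm) _ _ ?_
    intro y
    refine Finset.card_bij' (fun x hx => ⟨x, by
        simp only [Finset.mem_filter] at hx
        exact hx.2.2⟩) (fun x _ => (x : H)) ?_ ?_ ?_ ?_
    · intro x hx
      simp only [Finset.mem_filter, Finset.mem_univ, true_and] at hx ⊢
      rw [commute_iff_eq] at hx ⊢
      exact Subtype.ext hx.1
    · intro x hx
      simp only [Finset.mem_filter, Finset.mem_univ, true_and] at hx ⊢
      rw [commute_iff_eq] at hx ⊢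
      exact ⟨congrArg Subtype.val hx, x.2⟩
    · intro x hx
      rfl
    · intro x hx
      rfl
  calc cp H = ∑ x : H, (Finset.univ.filter fun y : H => Commute x y).card := cp_sum H
    _ ≤ ∑ x : H, (Finset.univ.filter fun w : M => Commute (f x) w).card *
        (Finset.univ.filter fun y : H => Commute x y ∧ f y = 1).card :=
        Finset.sum_le_sum fun x _ => h1 x
    _ = ∑ v : M, ∑ x ∈ Finset.univ.filter (fun x : H => f x = v),
        (Finset.univ.filter fun w : M => Commute (f x) w).card *
        (Finset.univ.filter fun y : H => Commute x y ∧ f y = 1).card :=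
        (Finset.sum_fiberwise Finset.univ f _).symm
    _ = ∑ v : M, (Finset.univ.filter fun w : M => Commute v w).card *
        ∑ x ∈ Finset.univ.filter (fun x : H => f x = v),
        (Finset.univ.filter fun y : H => Commute x y ∧ f y = 1).card := by
        refine Finset.sum_congr rfl fun v _ => ?_
        rw [Finset.mul_sum]
        refine Finset.sum_congr rfl fun x hx => ?_
        rw [(Finset.mem_filter.mp hx).2]
    _ ≤ ∑ v : M, (Finset.univ.filter fun w : M => Commute v w).card * cp f.ker :=
        Finset.sum_le_sum fun v _ => Nat.mul_le_mul_left _ (h2 v)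
    _ = cp M * cp f.ker := by rw [← Finset.sum_mul, ← cp_sum M]

end

/-- Gallagher's inequality -/
theorem gallagher {H M : Type} [Group H] [Group M] [Finite H] (f : H →* M) :
    kk H ≤ kk f.range * kk f.ker := by
  haveI := Fintype.ofFinite H
  haveI : Finite f.range := Finite.of_surjective f.rangeRestrict f.rangeRestrict_surjective
  haveI := Fintype.ofFinite f.range
  have h1 := cp_le f.rangeRestrict
  have hk : f.rangeRestrict.ker = f.ker := f.ker_rangeRestrict
  rw [cp_eq, cp_eq, cp_eq, hk] at h1
  have h2 : Nat.card H = Nat.card f.range * Nat.card f.ker := by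
    have h3 := f.ker.card_mul_index
    rw [Subgroup.index_ker] at h3
    rw [← h3, mul_comm]
  have h3 : 0 < Nat.card H := Nat.card_pos
  have h4 : kk f.range * Nat.card f.range * (kk f.ker * Nat.card f.ker) =
      kk f.range * kk f.ker * Nat.card H := by
    rw [h2]
    ring
  rw [h4] at h1
  exact Nat.le_of_mul_le_mul_right h1 h3

lemma kk_le_card (H : Type) [Group H] [Finite H] : kk H ≤ Nat.card H :=
  Nat.card_le_card_of_surjective ConjClasses.mk ConjClasses.mk_surjective

lemma kk_congr {H K : Type} [Group H] [Group K] [Finite K] (e : H ≃* K) : kk H = kk K := by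
  have h : cp H = cp K := by
    refine Nat.card_congr ((e.toEquiv.prodCongr e.toEquiv).subtypeEquiv fun p => ?_)
    simp only [Equiv.prodCongr_apply, commute_iff_eq]
    change _ ↔ e p.1 * e p.2 = e p.2 * e p.1
    rw [← map_mul, ← map_mul, e.injective.eq_iff]
  rw [cp_eq, cp_eq, Nat.card_congr e.toEquiv] at h
  exact Nat.eq_of_mul_eq_mul_right Nat.card_pos h

/-- the size of a centraliser -/
def ce {U : Type} [Group U] [Fintype U] (x : U) : ℕ :=
  (Finset.univ.filter fun y : U => Commute x y).card

lemma ce_eq {U : Type} [Group U] [Fintype U] (x : U) :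
    ce x = Nat.card (Subgroup.centralizer ({x} : Set U)) := by
  unfold ce
  rw [Nat.card_eq_fintype_card, Fintype.card_subtype]
  congr 1
  ext y
  simp only [Finset.mem_filter, Finset.mem_univ, true_and, Subgroup.mem_centralizer_singleton_iff]
  rw [commute_iff_eq]
  exact eq_comm

lemma ce_dvd {U : Type} [Group U] [Fintype U] (x : U) : ce x ∣ Nat.card U := by
  rw [ce_eq]
  exact Subgroup.card_subgroup_dvd_card _

/-- class size times centraliser -/
lemma class_mul {U : Type} [Group U] [Fintype U] (x : U) :
    (Finset.univ.filter fun y : U => IsConj x y).card * ce x = Nat.card U := by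
  rw [ce_eq, Subgroup.nat_card_centralizer_nat_card_stabilizer]
  have h1 := MulAction.card_orbit_mul_card_stabilizer_eq_card_group (ConjAct U) x
  have h2 : (Finset.univ.filter fun y : U => IsConj x y).card =
      Nat.card (MulAction.orbit (ConjAct U) x) := by
    rw [← Fintype.card_subtype, ← Nat.card_eq_fintype_card]
    refine Nat.card_congr (Equiv.subtypeEquivRight fun y => ?_)
    rw [ConjAct.mem_orbit_conjAct, isConj_comm]
  rw [h2]
  simp only [Nat.card_eq_fintype_card]
  rw [h1]
  rfl

/-- a nonabelian group of order 16 has at most 10 classes -/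
theorem sixteen {U : Type} [Group U] [Finite U] (h16 : Nat.card U = 16)
    (hn : ¬ ∀ a b : U, a * b = b * a) : kk U ≤ 10 := by
  haveI := Fintype.ofFinite U
  have hz : (Finset.univ.filter fun x : U => ce x = 16).card ≤ 4 := by
    have h1 : (Finset.univ.filter fun x : U => ce x = 16).card =
        Nat.card (Subgroup.center U) := by
      rw [Nat.card_eq_fintype_card, Fintype.card_subtype]
      congr 1
      ext x
      simp only [Finset.mem_filter, Finset.mem_univ, true_and]
      rw [Subgroup.mem_center_iff]
      constructor
      · intro h y
        have h2 : (Finset.univ.filter fun y : U => Commute x y) = Finset.univ := by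
          apply Finset.eq_univ_of_card
          rw [← Nat.card_eq_fintype_card, h16]
          exact h
        have h3 : y ∈ (Finset.univ.filter fun y : U => Commute x y) := by
          rw [h2]
          exact Finset.mem_univ y
        exact ((Finset.mem_filter.mp h3).2).symm
      · intro h
        unfold ce
        rw [Finset.filter_true_of_mem, Finset.card_univ, ← Nat.card_eq_fintype_card, h16]
        intro y _
        exact (h y).symm
    rw [h1]
    have h2 : Nat.card (Subgroup.center U) ∣ 2 ^ 4 := by
      have := Subgroup.card_subgroup_dvd_card (Subgroup.center U)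
      rw [h16] at this
      exact this
    obtain ⟨k, hk, hk2⟩ := (Nat.dvd_prime_pow Nat.prime_two).mp h2
    by_contra hcon
    push Not at hcon
    rw [hk2] at hcon
    have hk3 : 3 ≤ k := by
      by_contra h3
      push Not at h3
      interval_cases k <;> norm_num at hcon
    have hi : (Subgroup.center U).index ≤ 2 := by
      have h3 := (Subgroup.center U).card_mul_index
      rw [h16, hk2] at h3
      have h4 : 8 ≤ 2 ^ k := by
        calc 8 = 2 ^ 3 := by norm_num
          _ ≤ 2 ^ k := Nat.pow_le_pow_right (by norm_num) hk3
      nlinarith
    apply hn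
    have hcyc : IsCyclic (U ⧸ Subgroup.center U) := by
      have h0 : (Subgroup.center U).index ≠ 0 := Subgroup.index_ne_zero_of_finite
      have h5 : Nat.card (U ⧸ Subgroup.center U) = (Subgroup.center U).index := rfl
      have h6 : (Subgroup.center U).index = 1 ∨ (Subgroup.center U).index = 2 := by omega
      rcases h6 with h6 | h6
      · rw [h6] at h5
        haveI : Subsingleton (U ⧸ Subgroup.center U) :=
          (Nat.card_eq_one_iff_unique.mp h5).1
        infer_instance
      · rw [h6] at h5
        haveI : Fact (Nat.Prime 2) := ⟨Nat.prime_two⟩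
        exact isCyclic_of_prime_card h5
    exact commutative_of_cyclic_center_quotient (QuotientGroup.mk' (Subgroup.center U))
      (by rw [QuotientGroup.ker_mk'])
  have h1 : cp U ≤ 160 := by
    rw [cp_sum]
    change ∑ x : U, ce x ≤ 160
    rw [← Finset.sum_filter_add_sum_filter_not Finset.univ (fun x : U => ce x = 16)]
    have h2 : ∑ x ∈ Finset.univ.filter (fun x : U => ce x = 16), ce x =
        (Finset.univ.filter fun x : U => ce x = 16).card * 16 := by
      rw [Finset.sum_congr rfl (fun x hx => (Finset.mem_filter.mp hx).2), Finset.sum_const,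
        smul_eq_mul]
    have h3 : ∑ x ∈ Finset.univ.filter (fun x : U => ¬ ce x = 16), ce x ≤
        (Finset.univ.filter fun x : U => ¬ ce x = 16).card * 8 := by
      rw [← smul_eq_mul]
      apply Finset.sum_le_card_nsmul
      intro x hx
      have h4 := (Finset.mem_filter.mp hx).2
      have h5 := ce_dvd x
      rw [h16] at h5
      have h6 : ce x ∣ 2 ^ 4 := h5
      obtain ⟨k, hk, hk2⟩ := (Nat.dvd_prime_pow Nat.prime_two).mp h6
      rw [hk2] at h4 ⊢
      interval_cases k <;> simp_all
    have h4 := Finset.card_filter_add_card_filter_not (s := (Finset.univ : Finset U))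
      (fun x : U => ce x = 16)
    rw [Finset.card_univ, ← Nat.card_eq_fintype_card, h16] at h4
    omega
  rw [cp_eq, h16] at h1
  omega

end Pool.Agent.X255.BC
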