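import Pool.Agent.X255.BC.GG

/-!
# The fibre product `G`: at least 360 classes of 3-regular elements
-/

set_option linter.style.longLine false
set_option linter.style.haveILetI false
set_option linter.unusedSectionVars false
set_option linter.unusedVariables false

namespace Pool.Agent.X255.BC

open EE (f)

/-- representative -/
def p0 : PP := mkp ![0,1,2,3,4,5,6,7,8,9,10,11] ![0,1,2,3,4,5,6,7,8,9,10,11] (by decide) (by decide)
/-- representative -/
def p1 : PP := mkp ![0,1,9,4,3,8,7,6,5,2,10,11] ![0,1,9,4,3,8,7,6,5,2,10,11] (by decide) (by decide)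
/-- representative -/
def p2 : PP := mkp ![0,1,5,7,6,9,3,4,2,8,10,11] ![0,1,8,6,7,2,4,3,9,5,10,11] (by decide) (by decide)
/-- representative -/
def p3 : PP := mkp ![0,1,3,8,5,7,9,2,6,4,10,11] ![0,1,7,2,9,4,8,5,3,6,10,11] (by decide) (by decide)
/-- representative -/
def p4 : PP := mkp ![1,0,3,2,9,6,5,8,7,4,10,11] ![1,0,3,2,9,6,5,8,7,4,10,11] (by decide) (by decide)
/-- representative -/
def p5 : PP := mkp ![9,7,4,0,5,8,2,3,6,1,10,11] ![3,9,6,7,2,4,8,1,5,0,10,11] (by decide) (by decide)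
/-- representative -/
def p6 : PP := mkp ![1,2,4,6,3,8,9,0,7,5,10,11] ![7,0,1,4,2,9,3,8,5,6,10,11] (by decide) (by decide)
/-- representative -/
def q0 : PP := mkp ![0,1,2,6,7,8,3,4,5,9,11,10] ![0,1,2,6,7,8,3,4,5,9,11,10] (by decide) (by decide)
/-- representative -/
def q1 : PP := mkp ![0,1,3,9,2,6,8,5,7,4,11,10] ![0,1,4,2,9,7,5,8,6,3,11,10] (by decide) (by decide)
/-- representative -/
def q2 : PP := mkp ![1,0,3,5,8,7,2,9,6,4,11,10] ![1,0,6,2,9,3,8,5,4,7,11,10] (by decide) (by decide)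
/-- representative -/
def q3 : PP := mkp ![1,0,5,6,7,9,4,3,2,8,11,10] ![1,0,8,7,6,2,3,4,9,5,11,10] (by decide) (by decide)

/-- representatives with `ε = 1` -/
def rp0 : Fin 7 → PP := ![p0, p1, p2, p3, p4, p5, p6]
/-- representatives with `ε = -1` -/
def rp1 : Fin 4 → PP := ![q0, q1, q2, q3]

lemma rp0_tX : ∀ i, Tr.mem Tr.tX (enc (rp0 i)) = true := by decide +kernel
lemma rp1_tX : ∀ i, Tr.mem Tr.tX (enc (rp1 i)) = true := by decide +kernel

/-- representatives in `X` -/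
def x0 (i : Fin 7) : X := ⟨rp0 i, mem_of_code (rp0_tX i)⟩
/-- representatives in `X` -/
def x1 (i : Fin 4) : X := ⟨rp1 i, mem_of_code (rp1_tX i)⟩

lemma x0_eps (i : Fin 7) : eps (x0 i) = 1 := by
  rw [eps_one_iff]
  change rp0 i 10 = 10
  revert i
  decide +kernel

lemma x1_eps (i : Fin 4) : eps (x1 i) = -1 := by
  rcases Int.units_eq_one_or (eps (x1 i)) with h | h
  · rw [eps_one_iff] at h
    exfalso
    have h2 : ∀ i, ¬ rp1 i 10 = 10 := by decide +kernel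
    exact h2 i h
  · exact h

/-- the number of fixed points -/
def fx (g : PP) : ℕ := (Finset.univ.filter fun i => g i = i).card

lemma fx_conj (c g : PP) : fx (c * g * c⁻¹) = fx g := by
  unfold fx
  refine Finset.card_bij' (fun i _ => c⁻¹ i) (fun i _ => c i) ?_ ?_ ?_ ?_
  · intro i hi
    rw [Finset.mem_filter] at hi ⊢
    refine ⟨Finset.mem_univ _, ?_⟩
    have h : c (g (c⁻¹ i)) = i := hi.2
    calc g (c⁻¹ i) = c⁻¹ (c (g (c⁻¹ i))) := (Equiv.symm_apply_apply c _).symm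
      _ = c⁻¹ i := by rw [h]
  · intro i hi
    rw [Finset.mem_filter] at hi ⊢
    refine ⟨Finset.mem_univ _, ?_⟩
    change c (g (c⁻¹ (c i))) = c i
    rw [show c⁻¹ (c i) = i from Equiv.symm_apply_apply c i, hi.2]
  · intro i _
    exact Equiv.apply_symm_apply c i
  · intro i _
    exact Equiv.symm_apply_apply c i

/-- the invariant of a class -/
def ivt (g : PP) : ℕ × ℕ × ℕ × ℕ := (fx g, fx (g ^ 2), fx (g ^ 4), fx (g ^ 5))

lemma ivt_conj {x y : X} (h : IsConj x y) : ivt x = ivt y := by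
  obtain ⟨c, rfl⟩ := isConj_iff.mp h
  have e : ((c * x * c⁻¹ : X) : PP) = (c : PP) * (x : PP) * (c : PP)⁻¹ := rfl
  unfold ivt
  rw [e, conj_pow, conj_pow, conj_pow, fx_conj, fx_conj, fx_conj, fx_conj]

lemma eps_conj {x y : X} (h : IsConj x y) : eps x = eps y := by
  obtain ⟨c, rfl⟩ := isConj_iff.mp h
  rw [map_mul, map_mul, map_inv, mul_comm (eps c), mul_inv_cancel_right]

lemma rp0_sep : ∀ i j : Fin 7, ivt (rp0 i) = ivt (rp0 j) → i = j := by decide +kernel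
lemma rp1_sep : ∀ i j : Fin 4, ivt (rp1 i) = ivt (rp1 j) → i = j := by decide +kernel

lemma x0_inj {i j : Fin 7} (h : IsConj (x0 i) (x0 j)) : i = j := rp0_sep i j (ivt_conj h)

lemma x1_inj {i j : Fin 4} (h : IsConj (x1 i) (x1 j)) : i = j := rp1_sep i j (ivt_conj h)

lemma x0_pow (i : Fin 7) : (x0 i) ^ 40 = 1 := by
  apply Subtype.ext
  change (rp0 i) ^ 40 = 1
  revert i
  decide +kernel

lemma x1_pow (i : Fin 4) : (x1 i) ^ 40 = 1 := by
  apply Subtype.ext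
  change (rp1 i) ^ 40 = 1
  revert i
  decide +kernel

lemma x0_five : x0 5 = rX := by
  apply Subtype.ext
  change p5 = t1 * mm * mm * ww
  decide +kernel

/-- the index set, with 360 elements -/
abbrev II := (Fin 7 × EE.R0) ⊕ (Fin 4 × EE.R1) ⊕ Unit

lemma card_II : Fintype.card II = 360 := by
  rw [Fintype.card_sum, Fintype.card_sum, Fintype.card_prod, Fintype.card_prod, EE.card_R0,
    EE.card_R1, Fintype.card_fin, Fintype.card_fin, Fintype.card_unit]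

/-- the representatives -/
def th : II → X × EE
  | Sum.inl (i, y) => (x0 i, y)
  | Sum.inr (Sum.inl (i, y)) => (x1 i, y)
  | Sum.inr (Sum.inr ()) => (fX * rX * fX⁻¹, EE.v0)

lemma v0_R0 : EE.v0.a0 = 0 ∧ (EE.v0.z = 0 ∨ (EE.v0.a1 = 0 ∧ EE.v0.a2 = 0 ∧ EE.v0.b0 = 0 ∧ EE.v0.b1 = 0 ∧ EE.v0.b2 = 0)) :=
  ⟨rfl, Or.inl rfl⟩

lemma eps_rX : eps rX = 1 := by
  rw [← x0_five]
  exact x0_eps 5

lemma th_mem (s : II) : th s ∈ GG := by
  rw [mem_GG]
  rcases s with ⟨i, y⟩ | ⟨i, y⟩ | ⟨⟩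
  · change eps (x0 i) = f y
    rw [x0_eps, eq_comm, EE.f_one_iff]
    exact y.2.1
  · change eps (x1 i) = f y
    rw [x1_eps, eq_comm, EE.f_neg_iff]
    exact y.2.1
  · change eps (fX * rX * fX⁻¹) = f EE.v0
    rw [(EE.f_one_iff _).mpr rfl, ← eps_rX]
    exact (eps_conj (isConj_iff.mpr ⟨fX, rfl⟩)).symm

/-- the representatives in `G` -/
def thG (s : II) : GG := ⟨th s, th_mem s⟩

lemma pow40 (y : EE) : y ^ 40 = 1 := by
  rw [show 40 = 4 * 10 by norm_num, pow_mul, EE.pow4, one_pow]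

lemma frf_pow : (fX * rX * fX⁻¹) ^ 40 = 1 := by
  have h : rX ^ 40 = 1 := by
    rw [← x0_five]
    exact x0_pow 5
  rw [conj_pow, h, mul_one, mul_inv_cancel]

lemma thG_pow (s : II) : (thG s) ^ 40 = 1 := by
  apply Subtype.ext
  change (th s) ^ 40 = 1
  rcases s with ⟨i, y⟩ | ⟨i, y⟩ | ⟨⟩
  · exact Prod.ext (x0_pow i) (pow40 _)
  · exact Prod.ext (x1_pow i) (pow40 _)
  · exact Prod.ext frf_pow (pow40 _)

lemma thG_reg (s : II) : ¬ 3 ∣ orderOf (thG s) := by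
  intro h
  have h1 := h.trans (orderOf_dvd_of_pow_eq_one (thG_pow s))
  revert h1
  norm_num

lemma not_unit (i : Fin 7) (y : EE.R0) : ¬ IsConj (thG (Sum.inl (i, y))) (thG (Sum.inr (Sum.inr ()))) := by
  intro h
  obtain ⟨c, hc⟩ := isConj_iff.mp h
  have h1 : (c : X × EE).1 * x0 i * ((c : X × EE).1)⁻¹ = fX * rX * fX⁻¹ :=
    congrArg (fun t : GG => (t : X × EE).1) hc
  have h2 : (c : X × EE).2 * (y : EE) * ((c : X × EE).2)⁻¹ = EE.v0 :=
    congrArg (fun t : GG => (t : X × EE).2) hc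
  have h3 : i = 5 := by
    apply x0_inj
    rw [x0_five]
    have h4 : IsConj (x0 i) (fX * rX * fX⁻¹) := isConj_iff.mpr ⟨_, h1⟩
    have h5 : IsConj rX (fX * rX * fX⁻¹) := isConj_iff.mpr ⟨_, rfl⟩
    exact h4.trans h5.symm
  have h4 : y = ⟨EE.v0, v0_R0⟩ := EE.R0_inj _ _ (isConj_iff.mpr ⟨_, h2⟩)
  rw [h3, x0_five] at h1
  rw [h4] at h2
  change (c : X × EE).2 * EE.v0 * ((c : X × EE).2)⁻¹ = EE.v0 at h2
  have h5 : (c : X × EE).2 * EE.v0 = EE.v0 * (c : X × EE).2 := by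
    calc (c : X × EE).2 * EE.v0 = (c : X × EE).2 * EE.v0 * ((c : X × EE).2)⁻¹ * (c : X × EE).2 := by group
      _ = EE.v0 * (c : X × EE).2 := by rw [h2]
  have h6 : f (c : X × EE).2 = 1 := (EE.f_one_iff _).mpr (EE.comm_v0 h5)
  have h7 : eps (c : X × EE).1 = 1 := ((mem_GG _).mp c.2).trans h6
  have h8 : (fX⁻¹ * (c : X × EE).1) * rX = rX * (fX⁻¹ * (c : X × EE).1) := by
    calc (fX⁻¹ * (c : X × EE).1) * rX =
        fX⁻¹ * ((c : X × EE).1 * rX * ((c : X × EE).1)⁻¹) * (c : X × EE).1 := by group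
      _ = rX * (fX⁻¹ * (c : X × EE).1) := by rw [h1]; group
  have h9 := cent_eps _ h8
  rw [map_mul, map_inv, h7, mul_one, eps_fX] at h9
  revert h9
  decide

lemma not_01 (i : Fin 7) (y : EE.R0) (j : Fin 4) (w : EE.R1) :
    ¬ IsConj (thG (Sum.inl (i, y))) (thG (Sum.inr (Sum.inl (j, w)))) := by
  intro h
  obtain ⟨c, hc⟩ := isConj_iff.mp h
  have h1 : (c : X × EE).1 * x0 i * ((c : X × EE).1)⁻¹ = x1 j :=
    congrArg (fun t : GG => (t : X × EE).1) hc
  have h2 := eps_conj (isConj_iff.mpr ⟨_, h1⟩)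
  rw [x0_eps, x1_eps] at h2
  revert h2
  decide

lemma not_1u (j : Fin 4) (w : EE.R1) :
    ¬ IsConj (thG (Sum.inr (Sum.inl (j, w)))) (thG (Sum.inr (Sum.inr ()))) := by
  intro h
  obtain ⟨c, hc⟩ := isConj_iff.mp h
  have h1 : (c : X × EE).1 * x1 j * ((c : X × EE).1)⁻¹ = fX * rX * fX⁻¹ :=
    congrArg (fun t : GG => (t : X × EE).1) hc
  have h2 := eps_conj (isConj_iff.mpr ⟨_, h1⟩)
  have h3 : eps rX = eps (fX * rX * fX⁻¹) := eps_conj (isConj_iff.mpr ⟨_, rfl⟩)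
  rw [← h3, x1_eps, eps_rX] at h2
  revert h2
  decide

theorem thG_inj {s t : II} (h : IsConj (thG s) (thG t)) : s = t := by
  rcases s with ⟨i, y⟩ | ⟨i, y⟩ | ⟨⟩
  · rcases t with ⟨j, w⟩ | ⟨j, w⟩ | ⟨⟩
    · obtain ⟨c, hc⟩ := isConj_iff.mp h
      have h1 : (c : X × EE).1 * x0 i * ((c : X × EE).1)⁻¹ = x0 j :=
        congrArg (fun t : GG => (t : X × EE).1) hc
      have h2 : (c : X × EE).2 * (y : EE) * ((c : X × EE).2)⁻¹ = w :=
        congrArg (fun t : GG => (t : X × EE).2) hc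
      rw [x0_inj (isConj_iff.mpr ⟨_, h1⟩), EE.R0_inj _ _ (isConj_iff.mpr ⟨_, h2⟩)]
    · exact absurd h (not_01 i y j w)
    · exact absurd h (not_unit i y)
  · rcases t with ⟨j, w⟩ | ⟨j, w⟩ | ⟨⟩
    · exact absurd h.symm (not_01 j w i y)
    · obtain ⟨c, hc⟩ := isConj_iff.mp h
      have h1 : (c : X × EE).1 * x1 i * ((c : X × EE).1)⁻¹ = x1 j :=
        congrArg (fun t : GG => (t : X × EE).1) hc
      have h2 : (c : X × EE).2 * (y : EE) * ((c : X × EE).2)⁻¹ = w :=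
        congrArg (fun t : GG => (t : X × EE).2) hc
      rw [x1_inj (isConj_iff.mpr ⟨_, h1⟩), EE.R1_inj _ _ (isConj_iff.mpr ⟨_, h2⟩)]
    · exact absurd h (not_1u i y)
  · rcases t with ⟨j, w⟩ | ⟨j, w⟩ | ⟨⟩
    · exact absurd h.symm (not_unit j w)
    · exact absurd h.symm (not_1u j w)
    · rfl

end Pool.Agent.X255.BC
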