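import Pool.Agent.X255.BC.Code

/-!
# The group `X = PΓL_2(9)` as a group of permutations of twelve points
-/

set_option linter.style.longLine false
set_option linter.style.haveILetI false
set_option linter.unusedSectionVars false
set_option linter.unusedVariables false

namespace Pool.Agent.X255.BC

/-- permutations of twelve points -/
abbrev PP := Equiv.Perm (Fin 12)

/-- the code of a permutation -/
def enc (g : PP) : ℕ :=
  Nat.add (g 0) (Nat.mul 16 (Nat.add (g 1) (Nat.mul 16 (Nat.add (g 2) (Nat.mul 16 (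
  Nat.add (g 3) (Nat.mul 16 (Nat.add (g 4) (Nat.mul 16 (Nat.add (g 5) (Nat.mul 16 (
  Nat.add (g 6) (Nat.mul 16 (Nat.add (g 7) (Nat.mul 16 (Nat.add (g 8) (Nat.mul 16 (
  Nat.add (g 9) (Nat.mul 16 (Nat.add (g 10) (Nat.mul 16 (g 11))))))))))))))))))))))

lemma dg_aux (x0 x1 x2 x3 x4 x5 x6 x7 x8 x9 x10 x11 : ℕ) (h0 : x0 < 12) (h1 : x1 < 12)
    (h2 : x2 < 12) (h3 : x3 < 12) (h4 : x4 < 12) (h5 : x5 < 12) (h6 : x6 < 12) (h7 : x7 < 12)
    (h8 : x8 < 12) (h9 : x9 < 12) (h10 : x10 < 12) (h11 : x11 < 12) (e : ℕ)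
    (he : e = x0 + 16 * (x1 + 16 * (x2 + 16 * (x3 + 16 * (x4 + 16 * (x5 + 16 * (x6 + 16 *
      (x7 + 16 * (x8 + 16 * (x9 + 16 * (x10 + 16 * x11))))))))))) :
    dg e 0 = x0 ∧ dg e 1 = x1 ∧ dg e 2 = x2 ∧ dg e 3 = x3 ∧ dg e 4 = x4 ∧ dg e 5 = x5 ∧
    dg e 6 = x6 ∧ dg e 7 = x7 ∧ dg e 8 = x8 ∧ dg e 9 = x9 ∧ dg e 10 = x10 ∧ dg e 11 = x11 := by
  have hd : ∀ i, dg e i = e / 16 ^ i % 16 := fun i => rfl
  simp only [hd]
  norm_num only
  refine ⟨?_, ?_, ?_, ?_, ?_, ?_, ?_, ?_, ?_, ?_, ?_, ?_⟩ <;> omega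

lemma dg_enc (g : PP) (i : Fin 12) : dg (enc g) i = g i := by
  have h := dg_aux (g 0) (g 1) (g 2) (g 3) (g 4) (g 5) (g 6) (g 7) (g 8) (g 9) (g 10) (g 11)
    (g 0).2 (g 1).2 (g 2).2 (g 3).2 (g 4).2 (g 5).2 (g 6).2 (g 7).2 (g 8).2 (g 9).2 (g 10).2
    (g 11).2 (enc g) rfl
  obtain ⟨a0, a1, a2, a3, a4, a5, a6, a7, a8, a9, a10, a11⟩ := h
  fin_cases i
  · exact a0
  · exact a1
  · exact a2
  · exact a3
  · exact a4
  · exact a5
  · exact a6
  · exact a7
  · exact a8
  · exact a9
  · exact a10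
  · exact a11

lemma enc_inj {g h : PP} (he : enc g = enc h) : g = h := by
  ext i
  rw [← dg_enc g i, ← dg_enc h i, he]

lemma dg2 (g h : PP) (i : Fin 12) : dg (enc g) (dg (enc h) i) = ((g * h) i : Fin 12) := by
  rw [dg_enc h i, dg_enc g (h i)]
  rfl

lemma enc_mul (g h : PP) : enc (g * h) = mulC (enc g) (enc h) := by
  unfold mulC
  rw [show dg (enc g) (dg (enc h) 0) = ((g * h) 0 : Fin 12) from dg2 g h 0,
    show dg (enc g) (dg (enc h) 1) = ((g * h) 1 : Fin 12) from dg2 g h 1,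
    show dg (enc g) (dg (enc h) 2) = ((g * h) 2 : Fin 12) from dg2 g h 2,
    show dg (enc g) (dg (enc h) 3) = ((g * h) 3 : Fin 12) from dg2 g h 3,
    show dg (enc g) (dg (enc h) 4) = ((g * h) 4 : Fin 12) from dg2 g h 4,
    show dg (enc g) (dg (enc h) 5) = ((g * h) 5 : Fin 12) from dg2 g h 5,
    show dg (enc g) (dg (enc h) 6) = ((g * h) 6 : Fin 12) from dg2 g h 6,
    show dg (enc g) (dg (enc h) 7) = ((g * h) 7 : Fin 12) from dg2 g h 7,
    show dg (enc g) (dg (enc h) 8) = ((g * h) 8 : Fin 12) from dg2 g h 8,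
    show dg (enc g) (dg (enc h) 9) = ((g * h) 9 : Fin 12) from dg2 g h 9,
    show dg (enc g) (dg (enc h) 10) = ((g * h) 10 : Fin 12) from dg2 g h 10,
    show dg (enc g) (dg (enc h) 11) = ((g * h) 11 : Fin 12) from dg2 g h 11]
  rfl

/-- a permutation from a list of values and of values of the inverse -/
def mkp (f g : Fin 12 → Fin 12) (h1 : ∀ i, g (f i) = i) (h2 : ∀ i, f (g i) = i) : PP :=
  ⟨f, g, h1, h2⟩

/-- translation by `1` -/
def t1 : PP := mkp ![1,2,0,4,5,3,7,8,6,9,10,11] ![2,0,1,5,3,4,8,6,7,9,10,11] (by decide) (by decide)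
/-- translation by `i` -/
def t2 : PP := mkp ![3,4,5,6,7,8,0,1,2,9,10,11] ![6,7,8,0,1,2,3,4,5,9,10,11] (by decide) (by decide)
/-- multiplication by a generator -/
def mm : PP := mkp ![0,4,8,5,6,1,7,2,3,9,10,11] ![0,5,7,8,1,3,4,6,2,9,10,11] (by decide) (by decide)
/-- inversion -/
def ww : PP := mkp ![9,1,2,6,5,4,3,8,7,0,10,11] ![9,1,2,6,5,4,3,8,7,0,10,11] (by decide) (by decide)
/-- Frobenius -/
def ph : PP := mkp ![0,1,2,6,7,8,3,4,5,9,11,10] ![0,1,2,6,7,8,3,4,5,9,11,10] (by decide) (by decide)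

/-- `PΓL_2(9)` -/
def Xs : Subgroup PP := Subgroup.closure {t1, mm, ww, ph}

lemma all_mem {F : ℕ → Bool} {L : List ℕ} (h : L.all F = true) {c : ℕ} (hc : c ∈ L) : F c = true :=
  List.all_eq_true.mp h c hc

lemma enc_one : Tr.mem Tr.tX (enc 1) = true := by decide +kernel

lemma enc_t1 : enc t1 = 205155676274721 := by decide +kernel
lemma enc_t1i : enc t1⁻¹ = 205159452070146 := by decide +kernel
lemma enc_mm : enc mm = 205141178734656 := by decide +kernel
lemma enc_mmi : enc mm⁻¹ = 205137908959056 := by decide +kernel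
lemma enc_ww : enc ww = 204541429899801 := by decide +kernel
lemma enc_wwi : enc ww⁻¹ = 204541429899801 := by decide +kernel
lemma enc_ph : enc ph = 188657571422736 := by decide +kernel
lemma enc_phi : enc ph⁻¹ = 188657571422736 := by decide +kernel

lemma gen_mem (s : PP) (hs : s ∈ ({t1, mm, ww, ph} : Set PP)) : enc s ∈ gC ∧ enc s⁻¹ ∈ gC := by
  simp only [Set.mem_insert_iff, Set.mem_singleton_iff] at hs
  rcases hs with rfl | rfl | rfl | rfl
  · rw [enc_t1, enc_t1i]
    decide
  · rw [enc_mm, enc_mmi]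
    decide
  · rw [enc_ww, enc_wwi]
    decide
  · rw [enc_ph, enc_phi]
    decide

lemma step {x s : PP} (hx : Tr.mem Tr.tX (enc x) = true) (hs : enc s ∈ gC) :
    Tr.mem Tr.tX (enc (x * s)) = true := by
  rw [enc_mul]
  exact all_mem (all_mem ck_mul (Tr.mem_toL _ _ hx)) hs

lemma mem_tX {g : PP} (hg : g ∈ Xs) : Tr.mem Tr.tX (enc g) = true := by
  induction hg using Subgroup.closure_induction_right with
  | one => exact enc_one
  | mul_right x hx y hy h => exact step h (gen_mem y hy).1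
  | mul_inv_cancel x hx y hy h => exact step h (gen_mem y hy).2

lemma mem_LX {g : PP} (hg : g ∈ Xs) : enc g ∈ LX := Tr.mem_toL _ _ (mem_tX hg)

/-- universal statements about `X` by inspection of the table -/
lemma tool (F : ℕ → Bool) (h : LX.all F = true) {g : PP} (hg : g ∈ Xs) : F (enc g) = true :=
  all_mem h (mem_LX hg)

/-- the group `X` -/
abbrev X := Xs

lemma t1_mem : t1 ∈ Xs := Subgroup.subset_closure (by simp)
lemma mm_mem : mm ∈ Xs := Subgroup.subset_closure (by simp)
lemma ww_mem : ww ∈ Xs := Subgroup.subset_closure (by simp)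
lemma ph_mem : ph ∈ Xs := Subgroup.subset_closure (by simp)

attribute [irreducible] enc

lemma encX_inj : Function.Injective (fun x : X => enc x) := fun x y h => Subtype.ext (enc_inj h)

/-- counting with a list -/
lemma card_le_list (L : List ℕ) (h : ∀ x : X, enc x ∈ L) : Nat.card X ≤ L.length := by
  classical
  have h1 : Nat.card X ≤ Nat.card {c // c ∈ L.toFinset} :=
    Nat.card_le_card_of_injective
      (fun x : X => (⟨enc x, List.mem_toFinset.mpr (h x)⟩ : {c // c ∈ L.toFinset}))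
      (fun x y hxy => by
        have h3 : enc x = enc y := Subtype.ext_iff.mp hxy
        exact encX_inj h3)
  have h2 : Nat.card {c // c ∈ L.toFinset} = L.toFinset.card := by
    rw [Nat.card_eq_fintype_card, Fintype.card_coe]
  rw [h2] at h1
  exact h1.trans (List.toFinset_card_le L)

lemma card_le : Nat.card X ≤ 1440 := by
  have h := card_le_list LX (fun x => mem_LX x.2)
  rw [ck_len] at h
  exact h

/-- if the list has the right length then it enumerates `X` -/
lemma sum_list (L : List ℕ) (h : ∀ x : X, enc x ∈ L) (hc : L.length ≤ Nat.card X) [Fintype X]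
    (F : ℕ → ℕ) : ∑ x : X, F (enc x) = (L.map F).sum := by
  classical
  have h0 : (Finset.univ.image (fun x : X => enc x)) ⊆ L.toFinset := by
    intro c hc
    obtain ⟨x, -, rfl⟩ := Finset.mem_image.mp hc
    exact List.mem_toFinset.mpr (h x)
  have h1 : (Finset.univ.image (fun x : X => enc x)).card = Nat.card X := by
    rw [Finset.card_image_of_injective _ encX_inj, Finset.card_univ, Nat.card_eq_fintype_card]
  have h2 : L.toFinset.card ≤ L.length := List.toFinset_card_le L
  have h3 : (Finset.univ.image (fun x : X => enc x)) = L.toFinset :=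
    Finset.eq_of_subset_of_card_le h0 (by omega)
  have h4 : L.Nodup := by
    rw [← Multiset.coe_nodup, ← Multiset.toFinset_card_eq_card_iff_nodup]
    have h5 := Finset.card_le_card h0
    rw [h1] at h5
    change L.toFinset.card = L.length
    omega
  rw [← List.sum_toFinset F h4, ← h3, Finset.sum_image (fun x _ y _ hxy => encX_inj hxy)]

lemma exists_of_mem (L : List ℕ) (h : ∀ x : X, enc x ∈ L) (hc : L.length ≤ Nat.card X)
    {c : ℕ} (hcL : c ∈ L) : ∃ x : X, enc x = c := by
  classical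
  haveI := Fintype.ofFinite X
  have h0 : (Finset.univ.image (fun x : X => enc x)) ⊆ L.toFinset := by
    intro c hc
    obtain ⟨x, -, rfl⟩ := Finset.mem_image.mp hc
    exact List.mem_toFinset.mpr (h x)
  have h1 : (Finset.univ.image (fun x : X => enc x)).card = Nat.card X := by
    rw [Finset.card_image_of_injective _ encX_inj, Finset.card_univ, Nat.card_eq_fintype_card]
  have h2 : L.toFinset.card ≤ L.length := List.toFinset_card_le L
  have h3 : (Finset.univ.image (fun x : X => enc x)) = L.toFinset :=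
    Finset.eq_of_subset_of_card_le h0 (by omega)
  have h4 := List.mem_toFinset.mpr hcL
  rw [← h3] at h4
  obtain ⟨x, -, hx⟩ := Finset.mem_image.mp h4
  exact ⟨x, hx⟩

end Pool.Agent.X255.BC
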