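import Pool.Agent.X255.BC.PX

/-!
# Facts about `X`: the order, the sign map, an element of order five, a Sylow 2-subgroup
-/

set_option linter.style.longLine false
set_option linter.style.haveILetI false
set_option linter.unusedSectionVars false
set_option linter.unusedVariables false

namespace Pool.Agent.X255.BC

lemma card_sub_le (p : X → Prop) (L : List ℕ) (h : ∀ x : X, p x → enc x ∈ L) :
    Nat.card {x : X // p x} ≤ L.length := by
  classical
  have h1 : Nat.card {x : X // p x} ≤ Nat.card {c // c ∈ L.toFinset} :=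
    Nat.card_le_card_of_injective
      (fun x : {x : X // p x} => (⟨enc x.1, List.mem_toFinset.mpr (h x.1 x.2)⟩ : {c // c ∈ L.toFinset}))
      (fun x y hxy => by
        have h3 : enc x.1 = enc y.1 := Subtype.ext_iff.mp hxy
        exact Subtype.ext (encX_inj h3))
  have h2 : Nat.card {c // c ∈ L.toFinset} = L.toFinset.card := by
    rw [Nat.card_eq_fintype_card, Fintype.card_coe]
  rw [h2] at h1
  exact h1.trans (List.toFinset_card_le L)

/-! ### the sign map `ε` -/

lemma ck_eps : LX.all (fun c => (Nat.beq (dg c 10) 10 && Nat.beq (dg c 11) 11) ||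
    (Nat.beq (dg c 10) 11 && Nat.beq (dg c 11) 10)) = true := by decide +kernel

lemma dgv (g : PP) (i : Fin 12) (k : ℕ) (hk : k < 12) :
    Nat.beq (dg (enc g) i) k = true ↔ g i = ⟨k, hk⟩ := by
  rw [dg_enc, Nat.beq_eq, Fin.ext_iff]

lemma eps_or (x : X) : ((x : PP) 10 = 10 ∧ (x : PP) 11 = 11) ∨
    ((x : PP) 10 = 11 ∧ (x : PP) 11 = 10) := by
  have h := tool _ ck_eps x.2
  rw [Bool.or_eq_true, Bool.and_eq_true, Bool.and_eq_true] at h
  rcases h with ⟨h1, h2⟩ | ⟨h1, h2⟩
  · exact Or.inl ⟨(dgv x 10 10 (by norm_num)).mp h1, (dgv x 11 11 (by norm_num)).mp h2⟩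
  · exact Or.inr ⟨(dgv x 10 11 (by norm_num)).mp h1, (dgv x 11 10 (by norm_num)).mp h2⟩

/-- the homomorphism `X → {±1}` given by the action on the last two points -/
def eps : X →* ℤˣ where
  toFun x := if (x : PP) 10 = 10 then 1 else -1
  map_one' := by simp
  map_mul' x y := by
    have hx := eps_or x
    have hy := eps_or y
    change (if (x : PP) ((y : PP) 10) = 10 then (1 : ℤˣ) else -1) = _
    have n1 : ¬ (11 : Fin 12) = 10 := by decide
    rcases hx with ⟨a1, a2⟩ | ⟨a1, a2⟩ <;> rcases hy with ⟨b1, b2⟩ | ⟨b1, b2⟩ <;>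
      rw [b1] <;> simp only [a1, a2, if_true, n1, if_false, mul_one, one_mul, neg_mul_neg]

lemma eps_one_iff (x : X) : eps x = 1 ↔ (x : PP) 10 = 10 := by
  change (if (x : PP) 10 = 10 then (1 : ℤˣ) else -1) = 1 ↔ _
  split_ifs with h
  · simp [h]
  · simp only [h, iff_false]
    decide

/-! ### elements -/

/-- the generators as elements of `X` -/
def t1X : X := ⟨t1, t1_mem⟩
/-- multiplication -/
def mX : X := ⟨mm, mm_mem⟩
/-- inversion -/
def wX : X := ⟨ww, ww_mem⟩
/-- Frobenius -/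
def fX : X := ⟨ph, ph_mem⟩
/-- second translation -/
def t2X : X := mX ^ 6 * t1X * (mX ^ 6)⁻¹
/-- an element of order five -/
def rX : X := t1X * mX * mX * wX

lemma t2X_coe : (t2X : PP) = t2 := by
  change mm ^ 6 * t1 * (mm ^ 6)⁻¹ = t2
  decide +kernel

lemma rX_pow : rX ^ 5 = 1 := by
  apply Subtype.ext
  change (t1 * mm * mm * ww) ^ 5 = 1
  decide +kernel

lemma rX_ne : rX ≠ 1 := by
  intro h
  have h2 : t1 * mm * mm * ww = 1 := congrArg Subtype.val h
  revert h2
  decide +kernel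

lemma rX_order : orderOf rX = 5 := by
  haveI : Fact (Nat.Prime 5) := ⟨by norm_num⟩
  exact orderOf_eq_prime rX_pow rX_ne

lemma five_dvd : 5 ∣ Nat.card X := by
  rw [← rX_order]
  exact orderOf_dvd_natCard rX

lemma t1X_order : orderOf t1X = 3 := by
  haveI : Fact (Nat.Prime 3) := ⟨by norm_num⟩
  refine orderOf_eq_prime ?_ ?_
  · apply Subtype.ext
    change t1 ^ 3 = 1
    decide +kernel
  · intro h
    have h2 : t1 = 1 := congrArg Subtype.val h
    revert h2
    decide +kernel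

lemma t2X_order : orderOf t2X = 3 := by
  haveI : Fact (Nat.Prime 3) := ⟨by norm_num⟩
  refine orderOf_eq_prime ?_ ?_
  · apply Subtype.ext
    change (t2X : PP) ^ 3 = 1
    rw [t2X_coe]
    decide +kernel
  · intro h
    have h2 : (t2X : PP) = 1 := congrArg Subtype.val h
    rw [t2X_coe] at h2
    revert h2
    decide +kernel

lemma t_comm : Commute t1X t2X := by
  rw [commute_iff_eq]
  apply Subtype.ext
  change t1 * (t2X : PP) = (t2X : PP) * t1
  rw [t2X_coe]
  decide +kernel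

lemma nine_dvd : 9 ∣ Nat.card X := by
  have hc : ∀ (m : Subgroup.zpowers t1X) (n : Subgroup.zpowers t2X),
      Commute ((Subgroup.zpowers t1X).subtype m) ((Subgroup.zpowers t2X).subtype n) := by
    rintro ⟨m, hm⟩ ⟨n, hn⟩
    obtain ⟨i, rfl⟩ := Subgroup.mem_zpowers_iff.mp hm
    obtain ⟨j, rfl⟩ := Subgroup.mem_zpowers_iff.mp hn
    exact t_comm.zpow_zpow i j
  let Φ := MonoidHom.noncommCoprod (Subgroup.zpowers t1X).subtype (Subgroup.zpowers t2X).subtype hc
  have hinj : Function.Injective Φ := by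
    rw [MonoidHom.noncommCoprod_injective]
    refine ⟨Subtype.val_injective, Subtype.val_injective, ?_⟩
    rw [Subgroup.range_subtype, Subgroup.range_subtype, Subgroup.disjoint_def]
    intro x hx1 hx2
    by_contra hne
    haveI : Fact (Nat.Prime 3) := ⟨by norm_num⟩
    have hc2 : Nat.card (Subgroup.zpowers t2X) = 3 := by rw [Nat.card_zpowers, t2X_order]
    have h2 := mem_zpowers_of_prime_card (G := Subgroup.zpowers t2X) (p := 3) hc2 (g := ⟨x, hx2⟩)
      (g' := ⟨t2X, Subgroup.mem_zpowers _⟩) (fun h => hne (congrArg Subtype.val h))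
    obtain ⟨k, hk⟩ := Subgroup.mem_zpowers_iff.mp h2
    have hk2 : x ^ k = t2X := congrArg Subtype.val hk
    have h3 : t2X ∈ Subgroup.zpowers t1X := by
      rw [← hk2]
      exact Subgroup.zpow_mem _ hx1 k
    have hfin : IsOfFinOrder t1X := isOfFinOrder_of_finite _
    obtain ⟨i, hi, hi2⟩ := (hfin.mem_zpowers_iff_mem_range_orderOf (y := t2X)).mp h3 |> Finset.mem_image.mp
    rw [t1X_order] at hi
    have hi3 : i < 3 := Finset.mem_range.mp hi
    have hi4 : t1 ^ i = t2 := by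
      rw [← t2X_coe]
      exact congrArg Subtype.val hi2
    have hi5 : (t1 ^ i) 0 = t2 0 := by rw [hi4]
    interval_cases i
    · revert hi5; decide +kernel
    · revert hi5; decide +kernel
    · revert hi5; decide +kernel
  have h := Subgroup.card_dvd_of_injective Φ hinj
  rw [Nat.card_prod, Nat.card_zpowers, Nat.card_zpowers, t1X_order, t2X_order] at h
  exact h

/-- the code predicate for `P` -/
def inP (c : ℕ) : Bool :=
  (Nat.beq (dg c 0) 0 || Nat.beq (dg c 0) 9) && (Nat.beq (dg c 9) 0 || Nat.beq (dg c 9) 9)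

/-- a Sylow 2-subgroup: the stabiliser of `{0, ∞}` -/
def PS : Subgroup X where
  carrier := {x | ((x : PP) 0 = 0 ∨ (x : PP) 0 = 9) ∧ ((x : PP) 9 = 0 ∨ (x : PP) 9 = 9)}
  one_mem' := by
    refine ⟨Or.inl rfl, Or.inr rfl⟩
  mul_mem' {x y} hx hy := by
    have h1 : ((x * y : X) : PP) 0 = (x : PP) ((y : PP) 0) := rfl
    have h2 : ((x * y : X) : PP) 9 = (x : PP) ((y : PP) 9) := rfl
    rw [Set.mem_ofPred_eq, h1, h2]
    obtain ⟨a1, a2⟩ := hx
    obtain ⟨b1, b2⟩ := hy
    refine ⟨?_, ?_⟩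
    · rcases b1 with b1 | b1 <;> rw [b1] <;> assumption
    · rcases b2 with b2 | b2 <;> rw [b2] <;> assumption
  inv_mem' {x} hx := by
    obtain ⟨a1, a2⟩ := hx
    have h1 : ((x⁻¹ : X) : PP) 0 = (x : PP)⁻¹ 0 := rfl
    have h2 : ((x⁻¹ : X) : PP) 9 = (x : PP)⁻¹ 9 := rfl
    rw [Set.mem_ofPred_eq, h1, h2]
    simp only [Equiv.Perm.inv_eq_iff_eq]
    have n1 : ¬ (0 : Fin 12) = 9 := by decide
    have h3 : (x : PP) 0 ≠ (x : PP) 9 := fun h => n1 ((x : PP).injective h)
    rcases a1 with a1 | a1 <;> rcases a2 with a2 | a2 <;> simp_all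

lemma mem_PS (x : X) : x ∈ PS ↔ inP (enc x) = true := by
  have h : x ∈ PS ↔ (((x : PP) 0 = 0 ∨ (x : PP) 0 = 9) ∧ ((x : PP) 9 = 0 ∨ (x : PP) 9 = 9)) := Iff.rfl
  rw [h]
  unfold inP
  rw [Bool.and_eq_true, Bool.or_eq_true, Bool.or_eq_true,
    show Nat.beq (dg (enc (x : PP)) 0) 0 = true ↔ (x : PP) 0 = 0 from dgv x 0 0 (by norm_num),
    show Nat.beq (dg (enc (x : PP)) 0) 9 = true ↔ (x : PP) 0 = 9 from dgv x 0 9 (by norm_num),
    show Nat.beq (dg (enc (x : PP)) 9) 0 = true ↔ (x : PP) 9 = 0 from dgv x 9 0 (by norm_num),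
    show Nat.beq (dg (enc (x : PP)) 9) 9 = true ↔ (x : PP) 9 = 9 from dgv x 9 9 (by norm_num)]

lemma ck_P : (LX.filter inP).length = 32 := by decide +kernel

lemma PS_le : Nat.card PS ≤ 32 := by
  rw [← ck_P]
  exact card_sub_le (fun x => x ∈ PS) _ (fun x hx => List.mem_filter.mpr ⟨mem_LX x.2, (mem_PS x).mp hx⟩)

lemma mX_mem : mX ∈ PS := (mem_PS _).mpr (by decide +kernel)
lemma wX_mem : wX ∈ PS := (mem_PS _).mpr (by decide +kernel)
lemma fX_mem : fX ∈ PS := (mem_PS _).mpr (by decide +kernel)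

lemma ck_P32 : ∀ a b : Fin 8 × Fin 2 × Fin 2, mm ^ (a.1 : ℕ) * ww ^ (a.2.1 : ℕ) * ph ^ (a.2.2 : ℕ) =
    mm ^ (b.1 : ℕ) * ww ^ (b.2.1 : ℕ) * ph ^ (b.2.2 : ℕ) → a = b := by
  decide +kernel

lemma PS_ge : 32 ≤ Nat.card PS := by
  have h : Nat.card (Fin 8 × Fin 2 × Fin 2) ≤ Nat.card PS := by
    refine Nat.card_le_card_of_injective
      (fun a : Fin 8 × Fin 2 × Fin 2 => (⟨mX ^ (a.1 : ℕ) * wX ^ (a.2.1 : ℕ) * fX ^ (a.2.2 : ℕ),
        PS.mul_mem (PS.mul_mem (PS.pow_mem mX_mem _) (PS.pow_mem wX_mem _)) (PS.pow_mem fX_mem _)⟩ : PS)) ?_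
    intro a b hab
    apply ck_P32
    exact congrArg (fun y : PS => ((y : X) : PP)) hab
  simpa using h

lemma PS_card : Nat.card PS = 32 := le_antisymm PS_le PS_ge

theorem X_card : Nat.card X = 1440 := by
  have h1 := card_le
  have h2 := five_dvd
  have h3 := nine_dvd
  have h4 : 32 ∣ Nat.card X := by
    rw [← PS_card]
    exact Subgroup.card_subgroup_dvd_card PS
  have h5 : 0 < Nat.card X := Nat.card_pos
  omega

end Pool.Agent.X255.BC
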