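import Pool.Agent.X255.BC.XF
import Pool.Agent.X255.BC.Five

/-!
# More facts about `X`: commuting pairs in `P`, the centraliser of `r`, the even part
-/

set_option linter.style.longLine false
set_option linter.style.haveILetI false
set_option linter.unusedSectionVars false
set_option linter.unusedVariables false

namespace Pool.Agent.X255.BC

/-- summation with a list, general form -/
lemma sum_list' {T : Type} [Fintype T] (e : T → ℕ) (he : Function.Injective e) (L : List ℕ)
    (h : ∀ x : T, e x ∈ L) (hc : L.length ≤ Nat.card T) (F : ℕ → ℕ) :
    ∑ x : T, F (e x) = (L.map F).sum := by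
  classical
  have h0 : (Finset.univ.image e) ⊆ L.toFinset := by
    intro c hc
    obtain ⟨x, -, rfl⟩ := Finset.mem_image.mp hc
    exact List.mem_toFinset.mpr (h x)
  have h1 : (Finset.univ.image e).card = Nat.card T := by
    rw [Finset.card_image_of_injective _ he, Finset.card_univ, Nat.card_eq_fintype_card]
  have h2 : L.toFinset.card ≤ L.length := List.toFinset_card_le L
  have h3 : (Finset.univ.image e) = L.toFinset :=
    Finset.eq_of_subset_of_card_le h0 (by omega)
  have h4 : L.Nodup := by
    rw [← Multiset.coe_nodup, ← Multiset.toFinset_card_eq_card_iff_nodup]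
    have h5 := Finset.card_le_card h0
    rw [h1] at h5
    change L.toFinset.card = L.length
    omega
  rw [← List.sum_toFinset F h4, ← h3, Finset.sum_image (fun x _ y _ hxy => he hxy)]

/-- every code of the table is the code of an element of `X` -/
lemma exists_code {c : ℕ} (hc : Tr.mem Tr.tX c = true) : ∃ x : X, enc x = c :=
  exists_of_mem LX (fun x => mem_LX x.2) (by rw [X_card, ck_len]) (Tr.mem_toL _ _ hc)

lemma mem_of_code {g : PP} (h : Tr.mem Tr.tX (enc g) = true) : g ∈ Xs := by
  obtain ⟨x, hx⟩ := exists_code h
  have h2 : (x : PP) = g := enc_inj hx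
  rw [← h2]
  exact x.2

/-! ### commuting -/

/-- the commutation test -/
def cmC (c d : ℕ) : Bool := Nat.beq (mulC c d) (mulC d c)

lemma cmC_iff (x y : X) : cmC (enc x) (enc y) = true ↔ x * y = y * x := by
  unfold cmC
  rw [Nat.beq_eq, ← enc_mul, ← enc_mul]
  constructor
  · intro h
    exact Subtype.ext (enc_inj h)
  · intro h
    have h2 : (x : PP) * (y : PP) = (y : PP) * (x : PP) := congrArg Subtype.val h
    rw [h2]

/-! ### the centraliser of `r` -/

lemma enc_rX : enc (rX : PP) = 204604499625081 := by decide +kernel

lemma ck_r : (LX.filter (fun c => cmC c 204604499625081)).length = 10 := by decide +kernel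

lemma ck_r2 : (LX.filter (fun c => cmC c 204604499625081)).all (fun c => Nat.beq (dg c 10) 10) = true := by
  decide +kernel

lemma cent_mem (x : X) (hx : x * rX = rX * x) : enc x ∈ LX.filter (fun c => cmC c 204604499625081) := by
  rw [List.mem_filter]
  refine ⟨mem_LX x.2, ?_⟩
  rw [← enc_rX]
  exact (cmC_iff x rX).mpr hx

lemma cent_eps (x : X) (hx : x * rX = rX * x) : eps x = 1 := by
  have h := all_mem ck_r2 (cent_mem x hx)
  rw [eps_one_iff]
  exact (dgv x 10 10 (by norm_num)).mp h

lemma cent_card : Nat.card (Subgroup.centralizer ({rX} : Set X)) ≤ 10 := by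
  rw [← ck_r]
  exact card_sub_le (fun x => x ∈ Subgroup.centralizer ({rX} : Set X)) _ (fun x hx =>
    cent_mem x (Subgroup.mem_centralizer_singleton_iff.mp hx))

/-! ### the Sylow subgroup `P` -/

/-- the codes of the elements of `P` -/
def LP : List ℕ := [188021662189401, 188026826343801, 188029995480201, 188035118936601, 188040132109881, 188042646345801, 188047669138281, 188052782997801, 188640956414016, 188644482700416, 188648253704016, 188654045111136, 188657571422736, 188661338703216, 188667281092896, 188670706718256, 204515189085321, 204518648281161, 204522385737081, 204528261011001, 204531820867881, 204535604922201, 204541429899801, 204544889070441, 205132878988656, 205137908959056, 205141178734656, 205146218324256, 205151298589536, 205153762505856, 205158802073136, 205163983024656]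

lemma ck_LP : LX.all (fun c => !(inP c) || LP.elem c) = true := by decide +kernel
lemma ck_LP2 : LP.all (fun c => Tr.mem Tr.tX c && inP c) = true := by decide +kernel

lemma mem_LP (x : X) (hx : x ∈ PS) : enc x ∈ LP := by
  have h := tool _ ck_LP x.2
  rw [(mem_PS x).mp hx] at h
  simpa using h

lemma PS_sum [Fintype PS] (F : ℕ → ℕ) : ∑ x : PS, F (enc (x : X)) = (LP.map F).sum := by
  refine sum_list' (fun x : PS => enc (x : X)) (fun x y h => Subtype.ext (encX_inj h)) LP
    (fun x => mem_LP x x.2) ?_ F
  rw [PS_card]
  decide

/-- the two sums needed -/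
lemma ck_cpP : (LP.map fun c => (LP.map fun d => bif cmC c d then 1 else 0).sum).sum = 352 := by
  decide +kernel

lemma ck_M : (LP.map fun c => (LP.map fun d => bif cmC c d then
    (bif Nat.beq (dg c 10) 10 && Nat.beq (dg d 10) 10 then 2176 else 2048) else 0).sum).sum = 735232 := by
  decide +kernel

lemma ck_ab : (LP.map fun c => bif Nat.ble 16 ((LP.map fun d => bif cmC c d then 1 else 0).sum)
    then 1 else 0).sum = 8 := by decide +kernel

end Pool.Agent.X255.BC
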