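import Pool.Agent.X255.BC.XG

/-!
# Subgroups of `X` of order prime to three
-/

set_option linter.style.longLine false
set_option linter.style.haveILetI false
set_option linter.unusedSectionVars false
set_option linter.unusedVariables false

open scoped Classical Pointwise

noncomputable section

namespace Pool.Agent.X255.BC

/-- Sylow's theorem in elementwise form -/
lemma syl_conj {G : Type} [Group G] [Finite G] {p : ℕ} [Fact p.Prime] (A B : Subgroup G)
    (hA : IsPGroup p A) (hB : Nat.card B = p ^ (Nat.card G).factorization p) :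
    ∃ g : G, ∀ a ∈ A, g * a * g⁻¹ ∈ B := by
  obtain ⟨Q, hQ⟩ := hA.exists_le_sylow
  let B' : Sylow p G := Sylow.ofCard B hB
  obtain ⟨g, hg⟩ := MulAction.exists_smul_eq G Q B'
  refine ⟨g, fun a ha => ?_⟩
  have h1 : MulAut.conj g • a ∈ MulAut.conj g • (Q : Subgroup G) :=
    Subgroup.smul_mem_pointwise_smul a _ _ (hQ ha)
  have h2 : (MulAut.conj g • (Q : Subgroup G)) = B := by
    have h3 : ((g • Q : Sylow p G) : Subgroup G) = B := by
      rw [hg]
      rfl
    rw [← h3]
    rfl
  rw [h2] at h1
  exact h1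

/-! ### `P` -/

lemma cp_PS : cp PS = 352 := by
  rw [cp_sum]
  have h1 : ∀ x : PS, (Finset.univ.filter fun y : PS => Commute x y).card =
      (LP.map fun d => bif cmC (enc (x : X)) d then 1 else 0).sum := by
    intro x
    rw [← PS_sum (fun d => bif cmC (enc (x : X)) d then 1 else 0), Finset.card_filter]
    refine Finset.sum_congr rfl fun y _ => ?_
    by_cases h : Commute x y
    · have h2 : cmC (enc (x : X)) (enc (y : X)) = true :=
        (cmC_iff x y).mpr (congrArg Subtype.val h.eq)
      rw [if_pos h, h2]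
      rfl
    · have h2 : cmC (enc (x : X)) (enc (y : X)) = false := by
        rw [← Bool.not_eq_true, cmC_iff]
        intro h3
        exact h (Subtype.ext h3)
      rw [if_neg h, h2]
      rfl
  rw [Finset.sum_congr rfl fun x _ => h1 x,
    PS_sum (fun c => (LP.map fun d => bif cmC c d then 1 else 0).sum)]
  exact ck_cpP

lemma kk_PS : kk PS = 11 := by
  have h := cp_eq PS
  rw [cp_PS, PS_card] at h
  omega

/-- no abelian subgroup of order 16 in `P` -/
lemma no_ab (A : Subgroup PS) (hA : Nat.card A = 16) : ¬ ∀ a b : A, a * b = b * a := by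
  intro hab
  have h1 : (Finset.univ.filter fun x : PS => 16 ≤ (Finset.univ.filter fun y : PS => Commute x y).card).card = 8 := by
    rw [Finset.card_filter, ← ck_ab,
      ← PS_sum (fun c => bif Nat.ble 16 ((LP.map fun d => bif cmC c d then 1 else 0).sum)
        then 1 else 0)]
    refine Finset.sum_congr rfl fun x _ => ?_
    have h2 : (Finset.univ.filter fun y : PS => Commute x y).card =
      (LP.map fun d => bif cmC (enc (x : X)) d then 1 else 0).sum := by
      rw [← PS_sum (fun d => bif cmC (enc (x : X)) d then 1 else 0), Finset.card_filter]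
      refine Finset.sum_congr rfl fun y _ => ?_
      by_cases h : Commute x y
      · have h2 : cmC (enc (x : X)) (enc (y : X)) = true :=
          (cmC_iff x y).mpr (congrArg Subtype.val h.eq)
        rw [if_pos h, h2]
        rfl
      · have h2 : cmC (enc (x : X)) (enc (y : X)) = false := by
          rw [← Bool.not_eq_true, cmC_iff]
          intro h3
          exact h (Subtype.ext h3)
        rw [if_neg h, h2]
        rfl
    rw [← h2]
    by_cases h : 16 ≤ (Finset.univ.filter fun y : PS => Commute x y).card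
    · rw [if_pos h, Nat.ble_eq_true_of_le h]
      rfl
    · rw [if_neg h]
      have h3 : Nat.ble 16 (Finset.univ.filter fun y : PS => Commute x y).card = false := by
        rw [← Bool.not_eq_true, Nat.ble_eq]
        exact h
      rw [h3]
      rfl
  have h2 : (Finset.univ.filter fun x : PS => x ∈ A).card = 16 := by
    rw [← Fintype.card_subtype, ← Nat.card_eq_fintype_card]
    exact hA
  have h3 : (Finset.univ.filter fun x : PS => x ∈ A) ⊆
      (Finset.univ.filter fun x : PS => 16 ≤ (Finset.univ.filter fun y : PS => Commute x y).card) := by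
    intro x hx
    have hx' := (Finset.mem_filter.mp hx).2
    rw [Finset.mem_filter]
    refine ⟨Finset.mem_univ _, ?_⟩
    rw [← h2]
    refine Finset.card_le_card ?_
    intro y hy
    have hy' := (Finset.mem_filter.mp hy).2
    rw [Finset.mem_filter]
    exact ⟨Finset.mem_univ _, congrArg Subtype.val (hab ⟨x, hx'⟩ ⟨y, hy'⟩)⟩
  have h4 := Finset.card_le_card h3
  rw [h1, h2] at h4
  omega

lemma fact2 : (Nat.card X).factorization 2 = 5 := by
  rw [X_card]
  rw [show (1440 : ℕ) = 2 ^ 5 * 45 by norm_num, Nat.factorization_mul (by norm_num) (by norm_num),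
    Nat.Prime.factorization_pow Nat.prime_two]
  simp only [Finsupp.coe_add, Pi.add_apply, Finsupp.single_eq_same]
  rw [Nat.factorization_eq_zero_of_not_dvd (by norm_num)]

lemma fact5 : (Nat.card X).factorization 5 = 1 := by
  rw [X_card]
  rw [show (1440 : ℕ) = 5 ^ 1 * 288 by norm_num, Nat.factorization_mul (by norm_num) (by norm_num),
    Nat.Prime.factorization_pow (by norm_num)]
  simp only [Finsupp.coe_add, Pi.add_apply, Finsupp.single_eq_same]
  rw [Nat.factorization_eq_zero_of_not_dvd (by norm_num)]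

/-- 2-subgroups are conjugate to subgroups of `P` -/
lemma conj_PS (U : Subgroup X) (k : ℕ) (hU : Nat.card U = 2 ^ k) :
    ∃ g : X, ∀ a ∈ U, g * a * g⁻¹ ∈ PS := by
  haveI : Fact (Nat.Prime 2) := ⟨Nat.prime_two⟩
  apply syl_conj (p := 2) U PS (IsPGroup.of_card hU)
  rw [PS_card, fact2]
  norm_num

/-- the conjugated embedding -/
def emb (U : Subgroup X) (g : X) (h : ∀ a ∈ U, g * a * g⁻¹ ∈ PS) : U →* PS where
  toFun a := ⟨g * a * g⁻¹, h a a.2⟩
  map_one' := by
    apply Subtype.ext
    change g * 1 * g⁻¹ = 1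
    group
  map_mul' a b := by
    apply Subtype.ext
    change g * ((a : X) * (b : X)) * g⁻¹ = (g * a * g⁻¹) * (g * b * g⁻¹)
    group

lemma emb_inj (U : Subgroup X) (g : X) (h : ∀ a ∈ U, g * a * g⁻¹ ∈ PS) :
    Function.Injective (emb U g h) := by
  intro a b hab
  have h1 : g * (a : X) * g⁻¹ = g * (b : X) * g⁻¹ := congrArg Subtype.val hab
  apply Subtype.ext
  exact mul_left_cancel (mul_right_cancel h1)

lemma kk16 (U : Subgroup X) (hU : Nat.card U = 16) : kk U ≤ 10 := by
  obtain ⟨g, hg⟩ := conj_PS U 4 hU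
  apply sixteen hU
  intro hab
  apply no_ab (emb U g hg).range
  · rw [← hU]
    exact Nat.card_congr (MonoidHom.ofInjective (emb_inj U g hg)).toEquiv.symm
  · rintro ⟨a, ⟨a', rfl⟩⟩ ⟨b, ⟨b', rfl⟩⟩
    apply Subtype.ext
    change emb U g hg a' * emb U g hg b' = emb U g hg b' * emb U g hg a'
    rw [← map_mul, ← map_mul, hab]

/-- for subgroups of order 32, the conjugation is an isomorphism onto `P` -/
lemma conj32 (U : Subgroup X) (hU : Nat.card U = 32) :
    ∃ g : X, ∀ a, a ∈ U ↔ g * a * g⁻¹ ∈ PS := by
  obtain ⟨g, hg⟩ := conj_PS U 5 hU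
  refine ⟨g, fun a => ⟨hg a, fun ha => ?_⟩⟩
  have hb : Function.Bijective (emb U g hg) := by
    rw [Nat.bijective_iff_injective_and_card]
    exact ⟨emb_inj U g hg, by rw [hU, PS_card]⟩
  obtain ⟨b, hb⟩ := hb.2 ⟨_, ha⟩
  have h1 : g * (b : X) * g⁻¹ = g * a * g⁻¹ := congrArg Subtype.val hb
  have h2 : (b : X) = a := mul_left_cancel (mul_right_cancel h1)
  rw [← h2]
  exact b.2

lemma kk32 (U : Subgroup X) (hU : Nat.card U = 32) : kk U = 11 := by
  obtain ⟨g, hg⟩ := conj_PS U 5 hU
  have hb : Function.Bijective (emb U g hg) := by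
    rw [Nat.bijective_iff_injective_and_card]
    exact ⟨emb_inj U g hg, by rw [hU, PS_card]⟩
  rw [← kk_PS]
  exact kk_congr (MulEquiv.ofBijective (emb U g hg) hb)

/-! ### the even part -/

/-- the sign of a permutation -/
def sg : X →* ℤˣ := Equiv.Perm.sign.comp Xs.subtype

lemma sg_mX : sg mX = -1 := by
  change Equiv.Perm.sign mm = -1
  decide +kernel

lemma sg_fX : sg fX = 1 := by
  change Equiv.Perm.sign ph = 1
  decide +kernel

lemma eps_mX : eps mX = 1 := by
  rw [eps_one_iff]
  rfl

lemma eps_fX : eps fX = -1 := by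
  rcases Int.units_eq_one_or (eps fX) with h | h
  · rw [eps_one_iff] at h
    exfalso
    revert h
    change ¬ ph 10 = 10
    decide
  · exact h

lemma ker_card : Nat.card (eps.prod sg).ker = 360 := by
  have h1 := (eps.prod sg).ker.card_mul_index
  rw [Subgroup.index_ker, X_card] at h1
  have h2 : (eps.prod sg).range = ⊤ := by
    rw [MonoidHom.range_eq_top]
    rintro ⟨a, b⟩
    have e1 : (eps.prod sg) mX = (1, -1) := by
      rw [MonoidHom.prod_apply, sg_mX, eps_mX]
    have e2 : (eps.prod sg) fX = (-1, 1) := by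
      rw [MonoidHom.prod_apply, sg_fX, eps_fX]
    rcases Int.units_eq_one_or a with rfl | rfl <;> rcases Int.units_eq_one_or b with rfl | rfl
    · exact ⟨1, map_one _⟩
    · exact ⟨mX, e1⟩
    · exact ⟨fX, e2⟩
    · refine ⟨fX * mX, ?_⟩
      rw [map_mul, e1, e2]
      decide
  rw [h2] at h1
  have h3 : Nat.card (⊤ : Subgroup (ℤˣ × ℤˣ)) = 4 := by
    rw [Subgroup.card_top, Nat.card_prod]
    simp
  rw [h3] at h1
  omega

/-! ### elements of order five -/

lemma cent5 (y : X) (hy : orderOf y = 5) :
    Nat.card (Subgroup.centralizer ({y} : Set X)) ≤ 10 := by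
  haveI : Fact (Nat.Prime 5) := ⟨by norm_num⟩
  have h1 : Nat.card (Subgroup.zpowers y) = 5 ^ 1 := by rw [Nat.card_zpowers, hy, pow_one]
  obtain ⟨g, hg⟩ := syl_conj (p := 5) (Subgroup.zpowers y) (Subgroup.zpowers rX)
    (IsPGroup.of_card h1) (by rw [Nat.card_zpowers, rX_order, fact5, pow_one])
  have h2 := hg y (Subgroup.mem_zpowers y)
  have h3 : g * y * g⁻¹ ≠ 1 := by
    intro h
    have h4 : y = 1 := by
      have : y = g⁻¹ * (g * y * g⁻¹) * g := by group
      rw [this, h]
      group
    rw [h4, orderOf_one] at hy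
    omega
  have h4 : Nat.card (Subgroup.zpowers rX) = 5 := by rw [Nat.card_zpowers, rX_order]
  have h5 := mem_zpowers_of_prime_card (G := Subgroup.zpowers rX) (p := 5) h4
    (g := ⟨_, h2⟩) (g' := ⟨rX, Subgroup.mem_zpowers _⟩) (fun h => h3 (congrArg Subtype.val h))
  obtain ⟨k, hk⟩ := Subgroup.mem_zpowers_iff.mp h5
  have hk2 : (g * y * g⁻¹) ^ k = rX := congrArg Subtype.val hk
  refine le_trans ?_ cent_card
  refine Nat.card_le_card_of_injective
    (fun c : Subgroup.centralizer ({y} : Set X) =>
      (⟨g * c * g⁻¹, ?_⟩ : Subgroup.centralizer ({rX} : Set X))) ?_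
  · rw [Subgroup.mem_centralizer_singleton_iff]
    have h6 : (c : X) * y = y * c := Subgroup.mem_centralizer_singleton_iff.mp c.2
    have h7 : Commute (g * (c : X) * g⁻¹) (g * y * g⁻¹) := by
      rw [commute_iff_eq]
      calc g * (c : X) * g⁻¹ * (g * y * g⁻¹) = g * (c * y) * g⁻¹ := by group
        _ = g * (y * c) * g⁻¹ := by rw [h6]
        _ = g * y * g⁻¹ * (g * (c : X) * g⁻¹) := by group
    rw [← hk2]
    exact (h7.zpow_right k).eq
  · intro a b hab
    have h6 : g * (a : X) * g⁻¹ = g * (b : X) * g⁻¹ := congrArg Subtype.val hab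
    exact Subtype.ext (mul_left_cancel (mul_right_cancel h6))

/-- in a group whose order divides `40`, elements of order five generate the same subgroup -/
lemma forty {V : Type} [Group V] [Finite V] (h40 : Nat.card V ∣ 40) (a b : V) (ha : orderOf a = 5)
    (hb : orderOf b = 5) : b ∈ Subgroup.zpowers a := by
  haveI : Fact (Nat.Prime 5) := ⟨by norm_num⟩
  have h5 : 5 ∣ Nat.card V := by
    rw [← ha]
    exact orderOf_dvd_natCard a
  obtain ⟨m, hm⟩ := h5
  have hm8 : m ∣ 8 := by
    rw [hm] at h40
    exact Nat.dvd_of_mul_dvd_mul_left (by norm_num : 0 < 5) h40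
  have hf : (Nat.card V).factorization 5 = 1 := by
    have hm0 : m ≠ 0 := by
      rintro rfl
      have := Nat.card_pos (α := V)
      omega
    rw [hm, show 5 * m = 5 ^ 1 * m by ring, Nat.factorization_mul (by norm_num) hm0,
      Nat.Prime.factorization_pow (by norm_num)]
    simp only [Finsupp.coe_add, Pi.add_apply, Finsupp.single_eq_same]
    rw [Nat.factorization_eq_zero_of_not_dvd]
    intro h
    have := h.trans hm8
    revert this
    norm_num
  have hcA : Nat.card (Subgroup.zpowers a) = 5 ^ (Nat.card V).factorization 5 := by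
    rw [Nat.card_zpowers, ha, hf, pow_one]
  have hcB : Nat.card (Subgroup.zpowers b) = 5 ^ (Nat.card V).factorization 5 := by
    rw [Nat.card_zpowers, hb, hf, pow_one]
  let A : Sylow 5 V := Sylow.ofCard _ hcA
  let B : Sylow 5 V := Sylow.ofCard _ hcB
  have h1 : Nat.card (Sylow 5 V) ∣ 8 := by
    refine (A.card_dvd_index).trans ?_
    have h2 := (A : Subgroup V).card_mul_index
    have h3 : Nat.card (A : Subgroup V) = 5 := by
      change Nat.card (Subgroup.zpowers a) = 5
      rw [Nat.card_zpowers, ha]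
    rw [h3, hm] at h2
    have h4 : (A : Subgroup V).index = m := by omega
    rw [h4]
    exact hm8
  have h2 := card_sylow_modEq_one 5 V
  have h3 : Nat.card (Sylow 5 V) = 1 := by
    have h4 : Nat.card (Sylow 5 V) ∈ Nat.divisors 8 := Nat.mem_divisors.mpr ⟨h1, by norm_num⟩
    have h5 : Nat.divisors 8 = {1, 2, 4, 8} := by decide
    rw [h5] at h4
    simp only [Finset.mem_insert, Finset.mem_singleton] at h4
    rcases h4 with h4 | h4 | h4 | h4
    · exact h4
    · rw [h4] at h2
      exact absurd h2 (by decide)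
    · rw [h4] at h2
      exact absurd h2 (by decide)
    · rw [h4] at h2
      exact absurd h2 (by decide)
  haveI : Subsingleton (Sylow 5 V) := (Nat.card_eq_one_iff_unique.mp h3).1
  have h4 : A = B := Subsingleton.elim _ _
  have h5 : Subgroup.zpowers a = Subgroup.zpowers b := congrArg (fun S : Sylow 5 V => (S : Subgroup V)) h4
  rw [h5]
  exact Subgroup.mem_zpowers b

lemma kk5 (U : Subgroup X) (h3 : ¬ 3 ∣ Nat.card U) (h5 : 5 ∣ Nat.card U) : kk U ≤ 10 := by
  haveI : Fact (Nat.Prime 5) := ⟨by norm_num⟩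
  have hU : Nat.card U ∣ 160 := by
    have h1 : Nat.card U ∣ 1440 := by
      rw [← X_card]
      exact Subgroup.card_subgroup_dvd_card U
    have h2 : Nat.Coprime (Nat.card U) 9 := by
      have : Nat.Coprime (Nat.card U) 3 := ((Nat.Prime.coprime_iff_not_dvd Nat.prime_three).mpr h3).symm
      exact Nat.Coprime.pow_right 2 this
    rw [show (1440 : ℕ) = 160 * 9 by norm_num] at h1
    exact h2.dvd_of_dvd_mul_right h1
  obtain ⟨u, hu⟩ := exists_prime_orderOf_dvd_card' (G := U) 5 h5
  have huX : orderOf (u : X) = 5 := by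
    rw [← hu]
    exact orderOf_injective U.subtype Subtype.val_injective u
  -- the subgroup `V`
  let S : Subgroup X := (eps.prod sg).ker
  have memS : ∀ y : X, orderOf y = 5 → y ∈ S := by
    intro y hy
    have h1 : y ^ 5 = 1 := by rw [← hy]; exact pow_orderOf_eq_one y
    have h2 : ((eps.prod sg) y) ^ 5 = 1 := by rw [← map_pow, h1, map_one]
    have h4 : ∀ t : ℤˣ × ℤˣ, t ^ 5 = 1 → t = 1 := by
      rintro ⟨a, b⟩
      rcases Int.units_eq_one_or a with rfl | rfl <;> rcases Int.units_eq_one_or b with rfl | rfl <;> decide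
    exact MonoidHom.mem_ker.mpr (h4 _ h2)
  let V : Subgroup X := U ⊓ S
  have hV : Nat.card V ∣ 40 := by
    have h1 : Nat.card V ∣ 160 := (Subgroup.card_dvd_of_le inf_le_left).trans hU
    have h2 : Nat.card V ∣ 360 := by
      rw [← ker_card]
      exact Subgroup.card_dvd_of_le inf_le_right
    exact (Nat.dvd_gcd h1 h2).trans (by norm_num)
  have hconj : ∀ x : U, x * u * x⁻¹ ∈ Subgroup.zpowers u := by
    intro x
    have h1 : orderOf (((x * u * x⁻¹ : U)) : X) = 5 := by
      rw [← hu, ← orderOf_injective U.subtype Subtype.val_injective u]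
      have : ((x * u * x⁻¹ : U) : X) = MulAut.conj (x : X) (u : X) := rfl
      rw [this]
      exact orderOf_injective (MulAut.conj (x : X)).toMonoidHom (MulAut.conj (x : X)).injective (u : X)
    let a : V := ⟨u, u.2, memS _ huX⟩
    let b : V := ⟨((x * u * x⁻¹ : U) : X), (x * u * x⁻¹ : U).2, memS _ h1⟩
    have ha : orderOf a = 5 := by
      rw [← huX]
      exact (orderOf_injective V.subtype Subtype.val_injective a).symm
    have hb : orderOf b = 5 := by
      rw [← h1]
      exact (orderOf_injective V.subtype Subtype.val_injective b).symm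
    obtain ⟨k, hk⟩ := Subgroup.mem_zpowers_iff.mp (forty hV a b ha hb)
    have hk2 : (u : X) ^ k = ((x * u * x⁻¹ : U) : X) := congrArg Subtype.val hk
    refine Subgroup.mem_zpowers_iff.mpr ⟨k, Subtype.ext ?_⟩
    exact hk2
  have hN : (Subgroup.zpowers u).Normal := by
    constructor
    intro n hn x
    obtain ⟨k, rfl⟩ := Subgroup.mem_zpowers_iff.mp hn
    rw [← conj_zpow]
    exact Subgroup.zpow_mem _ (hconj x) k
  apply five u hu hN
  refine le_trans ?_ (cent5 u huX)
  refine Nat.card_le_card_of_injective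
    (fun c : Subgroup.centralizer ({u} : Set U) =>
      (⟨((c : U) : X), ?_⟩ : Subgroup.centralizer ({(u : X)} : Set X))) ?_
  · rw [Subgroup.mem_centralizer_singleton_iff]
    exact congrArg Subtype.val (Subgroup.mem_centralizer_singleton_iff.mp c.2)
  · intro a b hab
    have h7 := Subtype.ext_iff.mp hab
    exact Subtype.ext (Subtype.ext h7)

/-- `3'`-subgroups of order different from 32 have at most ten classes -/
theorem kk_le_ten (U : Subgroup X) (h3 : ¬ 3 ∣ Nat.card U) (h32 : Nat.card U ≠ 32) : kk U ≤ 10 := by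
  by_cases h10 : Nat.card U ≤ 10
  · exact (kk_le_card U).trans h10
  · by_cases h5 : 5 ∣ Nat.card U
    · exact kk5 U h3 h5
    · have h1 : Nat.card U ∣ 1440 := by
        rw [← X_card]
        exact Subgroup.card_subgroup_dvd_card U
      have h2 : Nat.Coprime (Nat.card U) 45 := by
        have e1 : Nat.Coprime (Nat.card U) 3 := ((Nat.Prime.coprime_iff_not_dvd Nat.prime_three).mpr h3).symm
        have e2 : Nat.Coprime (Nat.card U) 5 := ((Nat.Prime.coprime_iff_not_dvd (by norm_num)).mpr h5).symm
        have e3 : Nat.Coprime (Nat.card U) (3 ^ 2 * 5) := Nat.Coprime.mul_right (Nat.Coprime.pow_right 2 e1) e2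
        exact e3
      rw [show (1440 : ℕ) = 2 ^ 5 * 45 by norm_num] at h1
      have h4 := h2.dvd_of_dvd_mul_right h1
      obtain ⟨k, hk, hk2⟩ := (Nat.dvd_prime_pow Nat.prime_two).mp h4
      apply kk16
      rw [hk2] at h10 h32 ⊢
      interval_cases k <;> simp_all

end Pool.Agent.X255.BC
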